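import Pool.Agent.Lib.MP_f80667_ag.Dz.Main

/-!
A transcendental element of a function field of one variable has finitely many zeros, and it has an
order at each of them.
-/

open Polynomial IsDedekindDomain

open scoped IntermediateField.algebraAdjoinAdjoin LinearAlgebra.Projectivization

namespace Bx

open ZC Dz

universe u

variable {k E Ω : Type u} [Field k] [Field E] [Field Ω] [Algebra k E] [Algebra k Ω]

theorem exists_zeros [CharZero k] [IsAlgClosed Ω] (hE : IsFunField k E) {x : E}
    (hx : Transcendental k x) : ∃ (T : Finset (Place k E Ω)) (m : Place k E Ω → ℤ),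
      (∀ w, w ∈ T ↔ x ∈ w.V.nonunits) ∧ ∀ w ∈ T, w.IsOrd x (m w) := by
  classical
  let R := Algebra.adjoin k {x}
  let K := IntermediateField.adjoin k {x}
  let B := integralClosure R E
  have hfin : FiniteDimensional K E := finite_adjoin hE hx
  have hpid : IsPrincipalIdealRing R := dedekind_adjoin hx
  have hded : IsDedekindDomain R := inferInstance
  have hchar : CharZero K := charZero_of_injective_algebraMap (algebraMap k K).injective
  have hsep : Algebra.IsSeparable K E := inferInstance
  have hB : IsDedekindDomain B := integralClosure.isDedekindDomain R K E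
  have hBfin : Module.Finite R B := IsIntegralClosure.finite R K E B
  have hfr : IsFractionRing B E := IsIntegralClosure.isFractionRing_of_finite_extension R K E B
  let p : Ideal R := Ideal.span {xx k x}
  have hp : p.IsMaximal := max_ker hx
  have hx0 : x ≠ 0 := by
    rintro rfl
    exact hx ⟨X, X_ne_zero, by simp⟩
  have hxx0 : xx k x ≠ 0 := fun h => hx0 (congrArg Subtype.val h)
  have hp0 : p ≠ ⊥ := by
    rw [Ne, Ideal.span_singleton_eq_bot]
    exact hxx0
  let b0 : B := algebraMap R B (xx k x)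
  have hb0E : algebraMap B E b0 = x := rfl
  have hb0 : b0 ≠ 0 := fun h => hx0 (by rw [← hb0E, h, map_zero])
  let : Fintype (p.primesOver B) := (Algebra.QuasiFinite.finite_primesOver p).fintype
  have hIsB : ∀ (w : Place k E Ω), x ∈ w.V → ∀ b : B, algebraMap B E b ∈ w.V :=
    fun w hw b => mem_of_integral w hw b
  let cond : p.primesOver B → Place k E Ω → Prop := fun q w =>
    ∀ b : B, algebraMap B E b ∈ w.V.nonunits ↔ b ∈ q.1
  have hex : ∀ w : Place k E Ω, x ∈ w.V.nonunits → ∃ q, cond q w := by
    intro w hxw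
    have hxV : x ∈ w.V := w.V.nonunits_subset hxw
    let χ : B →+* Ω := w.res.comp ((algebraMap B E).codRestrict w.V.toSubring (hIsB w hxV))
    have hχ : ∀ b, b ∈ RingHom.ker χ ↔ algebraMap B E b ∈ w.V.nonunits := by
      intro b
      rw [RingHom.mem_ker]
      exact Fa.res_eq_zero_iff w _
    have hprime : (RingHom.ker χ).IsPrime := RingHom.ker_isPrime χ
    have hle : p ≤ (RingHom.ker χ).under R := by
      rw [Ideal.span_singleton_le_iff_mem]
      change algebraMap R B (xx k x) ∈ RingHom.ker χ
      rw [hχ]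
      exact hxw
    have hlies : (RingHom.ker χ).LiesOver p := by
      refine ⟨hp.eq_of_le ?_ hle⟩
      exact Ideal.IsPrime.ne_top inferInstance
    exact ⟨⟨RingHom.ker χ, hprime, hlies⟩, fun b => (hχ b).symm⟩
  have hbot : ∀ q : p.primesOver B, q.1 ≠ ⊥ := by
    intro q hq
    have h3 : b0 ∈ q.1 := by
      have := q.2.2
      have h4 : xx k x ∈ q.1.under R := by
        rw [← q.2.2.over]
        exact Ideal.mem_span_singleton_self _
      exact h4
    rw [hq, Ideal.mem_bot] at h3
    exact hb0 h3
  let vq : p.primesOver B → HeightOneSpectrum B := fun q => ⟨q.1, q.2.1, hbot q⟩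
  have hplc : ∀ q w, x ∈ w.V.nonunits → cond q w →
      ∃ φ : B ⧸ (vq q).asIdeal →ₐ[k] Ω, plc (vq q) φ E = w :=
    fun q w hw hc => plc_surj (vq q) w (hIsB w (w.V.nonunits_subset hw)) hc
  have hram : ∀ q w, x ∈ w.V.nonunits → cond q w → ∃ m : ℤ, w.IsOrd x m := by
    intro q w hw hc
    obtain ⟨φ, hφ⟩ := hplc q w hw hc
    have h3 : w.V = VV E (vq q) := by rw [← hφ]; rfl
    have h4 := ord_plc (k := k) (vq q) w h3 hb0
    rw [hb0E] at h4
    exact ⟨_, h4⟩
  have hfinite : {w : Place k E Ω | x ∈ w.V.nonunits}.Finite := by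
    have hfq : ∀ q : p.primesOver B, Finite (B ⧸ (vq q).asIdeal →ₐ[k] Ω) := by
      intro q
      have hq1 := q.2.1
      have hq2 := q.2.2
      have hq3 : q.1.IsMaximal := Ideal.IsMaximal.of_liesOver_isMaximal q.1 p
      let : Field (R ⧸ p) := Ideal.Quotient.field p
      let : Field (B ⧸ q.1) := Ideal.Quotient.field q.1
      have hs1 : IsScalarTower k (R ⧸ p) (B ⧸ q.1) := IsScalarTower.of_algebraMap_eq fun a => rfl
      have hf1 : Module.finrank k (R ⧸ p) = 1 := finrank_quot hx
      have hf3 : Module.Finite k (R ⧸ p) :=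
        Module.finite_of_finrank_pos (by rw [hf1]; exact one_pos)
      have hf4 : Module.Finite k (B ⧸ q.1) := Module.Finite.trans (R ⧸ p) (B ⧸ q.1)
      exact inferInstanceAs (Finite (B ⧸ q.1 →ₐ[k] Ω))
    refine (Set.finite_range (fun s : (Σ q : p.primesOver B, (B ⧸ (vq q).asIdeal →ₐ[k] Ω)) =>
      plc (vq s.1) s.2 E)).subset ?_
    intro w hw
    obtain ⟨q, hq⟩ := hex w hw
    obtain ⟨φ, hφ⟩ := hplc q w hw hq
    exact ⟨⟨q, φ⟩, hφ⟩
  have hord : ∀ w : Place k E Ω, ∃ m : ℤ, x ∈ w.V.nonunits → w.IsOrd x m := by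
    intro w
    by_cases hw : x ∈ w.V.nonunits
    · obtain ⟨q, hq⟩ := hex w hw
      obtain ⟨m, hm⟩ := hram q w hw hq
      exact ⟨m, fun _ => hm⟩
    · exact ⟨0, fun h => absurd h hw⟩
  choose m hm using hord
  refine ⟨hfinite.toFinset, m, fun w => by simp, fun w hw => hm w (by simpa using hw)⟩

end Bx
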