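import Mathlib
import Pool.Agent.Lib.MP_f80667_ag.ZC.Defs
import Pool.Agent.Lib.MP_f80667_ag.Fa.Ext0
import Pool.Agent.Lib.MP_f80667_ag.Dz.Fin

/-!
Places with given values.

Proof of `exists_place_of_hom`: `q = ker χ` is a prime ideal of `B`; the elements outside `q` are not
in `ker ρ`, so `ρ` extends to the local ring `B_q → M`. By
`LocalSubring.exists_factor_valuationRing` there is a valuation ring `V` of `M` which contains the
image of `B_q` and dominates it; `V ≠ M` because `ρ b₀ ≠ 0` is not a unit of `V`. The residue field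
`κ(V)` is algebraic over `K` (`res_algebraic`: `V` is a valuation ring of a function field of one
variable), so it is algebraic over the residue field `κ(q) = Frac (B/q)`, and the embedding
`κ(q) → Ω'` given by `χ` extends to `κ(V) → Ω'`.

Proof of `res_algebraic`: let `x ∈ V` have transcendental residue over `K`; then `x` is
transcendental over `K`, `K[x] \ {0} ⊆ Vˣ`, so `K(x) ⊆ V`, and `M` is finite over `K(x)`
(`Dz.finite_adjoin`), so integral over `V`, so `V = M`.
-/

open Polynomial

namespace Bx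

open ZC

universe u

/-- The residues of a valuation ring `V ≠ M` of a function field of one variable are algebraic. -/
theorem res_algebraic {K M : Type u} [Field K] [Field M] [Algebra K M] (hM : IsFunField K M)
    (V : ValuationSubring M) (hV : V ≠ ⊤) (hK : ∀ a : K, algebraMap K M a ∈ V)
    {R : Type*} [Field R] (j : K →+* R) (res : V →+* R)
    (hj : ∀ a : K, res ⟨algebraMap K M a, hK a⟩ = j a)
    (h0 : ∀ y : V, ¬ IsUnit y → res y = 0) (x : V) :
    ∃ p : K[X], p ≠ 0 ∧ p.eval₂ j (res x) = 0 := by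
  by_contra hcon
  push Not at hcon
  let c : K →+* V :=
    { toFun := fun a => ⟨algebraMap K M a, hK a⟩
      map_one' := by ext; simp
      map_zero' := by ext; simp
      map_mul' := by intro x y; ext; simp
      map_add' := by intro x y; ext; simp }
  have hc : V.subtype.comp c = algebraMap K M := rfl
  have hr : res.comp c = j := RingHom.ext hj
  have h1 : ∀ p : K[X], res (p.eval₂ c x) = p.eval₂ j (res x) := by
    intro p
    rw [Polynomial.hom_eval₂, hr]
  have h2 : ∀ p : K[X], ((p.eval₂ c x : V) : M) = aeval (x : M) p := by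
    intro p
    rw [aeval_def, ← hc]
    exact Polynomial.hom_eval₂ p c V.subtype x
  have h3 : ∀ p : K[X], p ≠ 0 → IsUnit (p.eval₂ c x) := by
    intro p hp
    by_contra h
    exact hcon p hp (by rw [← h1, h0 _ h])
  have hx : Transcendental K (x : M) := by
    rintro ⟨p, hp, hp0⟩
    refine (h3 p hp).ne_zero ?_
    ext
    rw [h2, hp0]
    rfl
  have hle : ∀ y ∈ IntermediateField.adjoin K {(x : M)}, y ∈ V := by
    intro y hy
    rw [IntermediateField.mem_adjoin_simple_iff] at hy
    obtain ⟨p, q, rfl⟩ := hy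
    by_cases hq : q = 0
    · subst hq
      simp only [map_zero, div_zero]
      exact V.zero_mem
    · rw [← h2 p, ← h2 q, div_eq_mul_inv]
      refine V.mul_mem _ _ (SetLike.coe_mem _) ?_
      obtain ⟨u, hu⟩ := h3 q hq
      have h4 : ((u : V) : M) * ((u⁻¹ : Vˣ) : V) = 1 := by
        have := congrArg (fun z : V => (z : M)) u.mul_inv
        exact this
      rw [← hu, inv_eq_of_mul_eq_one_right h4]
      exact SetLike.coe_mem _
  have hfin := Dz.finite_adjoin hM hx
  apply hV
  rw [eq_top_iff]
  intro y _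
  have hy : IsIntegral (IntermediateField.adjoin K {(x : M)}) y := Algebra.IsIntegral.isIntegral y
  let φ : IntermediateField.adjoin K {(x : M)} →+* V :=
    { toFun := fun a => ⟨a, hle a a.2⟩
      map_one' := rfl
      map_zero' := rfl
      map_mul' := fun _ _ => rfl
      map_add' := fun _ _ => rfl }
  have hy2 : IsIntegral V y :=
    IsIntegral.map_of_comp_eq φ (RingHom.id M) rfl hy
  obtain ⟨z, hz⟩ := IsIntegrallyClosed.isIntegral_iff.1 hy2
  rw [← hz]
  exact z.2

theorem exists_place_of_hom {K M Ω' : Type u} [Field K] [Field M] [Field Ω'] [IsAlgClosed Ω']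
    [Algebra K M] [Algebra K Ω'] (hM : IsFunField K M) {B : Type u} [CommRing B] [Algebra K B]
    (ρ : B →ₐ[K] M) (χ : B →ₐ[K] Ω') (hle : RingHom.ker ρ ≤ RingHom.ker χ) {b₀ : B}
    (h0 : ρ b₀ ≠ 0) (h0' : χ b₀ = 0) :
    ∃ w : Place K M Ω', ∀ b : B, ∃ hb : ρ b ∈ w.V, w.res ⟨ρ b, hb⟩ = χ b := by
  classical
  let q : Ideal B := RingHom.ker χ.toRingHom
  have hq : q.IsPrime := RingHom.ker_isPrime _
  let Bq := Localization.AtPrime q
  have hmem : ∀ b : B, b ∈ q ↔ χ b = 0 := fun b => RingHom.mem_ker
  have hρu : ∀ y : q.primeCompl, IsUnit (ρ.toRingHom y) := by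
    intro y
    rw [isUnit_iff_ne_zero]
    intro h
    refine y.2 ?_
    have h1 : (y : B) ∈ RingHom.ker ρ := h
    exact hle h1
  have hχu : ∀ y : q.primeCompl, IsUnit (χ.toRingHom y) := by
    intro y
    rw [isUnit_iff_ne_zero]
    intro h
    exact y.2 h
  let ρ' : Bq →+* M := IsLocalization.lift (M := q.primeCompl) hρu
  let χ' : Bq →+* Ω' := IsLocalization.lift (M := q.primeCompl) hχu
  have hρ' : ∀ b : B, ρ' (algebraMap B Bq b) = ρ b := fun b => IsLocalization.lift_eq hρu b
  have hχ' : ∀ b : B, χ' (algebraMap B Bq b) = χ b := fun b => IsLocalization.lift_eq hχu b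
  obtain ⟨V, hV, hloc⟩ := IsLocalRing.exists_factor_valuationRing ρ'
  let r : Bq →+* V := ρ'.codRestrict V.toSubring hV
  have hlr : IsLocalHom r := hloc
  have hr : ∀ z : Bq, ((r z : V) : M) = ρ' z := fun z => rfl
  have hlχ : IsLocalHom χ' := by
    refine ⟨fun z hz => ?_⟩
    by_contra h
    have h1 : z ∈ IsLocalRing.maximalIdeal Bq := h
    rw [← Localization.AtPrime.map_eq_maximalIdeal] at h1
    have h2 : Ideal.map (algebraMap B Bq) q ≤ RingHom.ker χ' := by
      rw [Ideal.map_le_iff_le_comap]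
      intro b hb
      rw [Ideal.mem_comap, RingHom.mem_ker, hχ']
      exact (hmem b).1 hb
    have h3 : χ' z = 0 := h2 h1
    rw [h3] at hz
    exact not_isUnit_zero hz
  have hb0 : ¬ IsUnit (r (algebraMap B Bq b₀)) := by
    intro h
    have h1 : IsUnit (algebraMap B Bq b₀) := IsUnit.of_map r _ h
    have h2 := h1.map χ'
    rw [hχ', h0'] at h2
    exact not_isUnit_zero h2
  have hVtop : V ≠ ⊤ := by
    intro h
    refine hb0 ?_
    have h1 : (ρ b₀)⁻¹ ∈ V := by
      rw [h]
      trivial
    refine IsUnit.of_mul_eq_one (⟨(ρ b₀)⁻¹, h1⟩ : V) ?_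
    ext
    change ρ' (algebraMap B Bq b₀) * (ρ b₀)⁻¹ = 1
    rw [hρ', mul_inv_cancel₀ h0]
  have hmemV : ∀ b : B, ρ b ∈ V := by
    intro b
    rw [← hρ']
    exact hV _
  have hKV : ∀ a : K, algebraMap K M a ∈ V := by
    intro a
    rw [← ρ.commutes]
    exact hmemV _
  -- the residue fields
  let κ := IsLocalRing.ResidueField V
  let κ₀ := IsLocalRing.ResidueField Bq
  let ι₁ : κ₀ →+* κ := IsLocalRing.ResidueField.map r
  let ι₂ : κ₀ →+* Ω' := IsLocalRing.ResidueField.lift χ'
  have e1 : ∀ z : Bq, ι₁ (IsLocalRing.residue Bq z) = IsLocalRing.residue V (r z) := fun z => rfl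
  have e2 : ∀ z : Bq, ι₂ (IsLocalRing.residue Bq z) = χ' z := fun z => rfl
  let j : K →+* κ := ι₁.comp ((IsLocalRing.residue Bq).comp ((algebraMap B Bq).comp
    (algebraMap K B)))
  have hj : ∀ a : K, IsLocalRing.residue V ⟨algebraMap K M a, hKV a⟩ = j a := by
    intro a
    change _ = IsLocalRing.residue V (r (algebraMap B Bq (algebraMap K B a)))
    congr 1
    ext
    change algebraMap K M a = ρ' (algebraMap B Bq (algebraMap K B a))
    rw [hρ', ρ.commutes]
  let : Algebra κ₀ κ := ι₁.toAlgebra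
  let : Algebra κ₀ Ω' := ι₂.toAlgebra
  have halg : Algebra.IsAlgebraic κ₀ κ := by
    refine ⟨fun y => ?_⟩
    obtain ⟨x, rfl⟩ := IsLocalRing.residue_surjective y
    obtain ⟨p, hp, hp0⟩ := res_algebraic hM V hVtop hKV j (IsLocalRing.residue V) hj
      (fun y hy => by
        rw [IsLocalRing.residue_eq_zero_iff]
        exact hy) x
    refine ⟨p.map ((IsLocalRing.residue Bq).comp ((algebraMap B Bq).comp (algebraMap K B))), ?_, ?_⟩
    · rwa [Ne, Polynomial.map_eq_zero]
    · rw [aeval_def, eval₂_map]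
      exact hp0
  let φ : κ →ₐ[κ₀] Ω' := IsAlgClosed.lift
  have hφ : ∀ z : Bq, φ (IsLocalRing.residue V (r z)) = χ' z := by
    intro z
    have h1 := φ.commutes (IsLocalRing.residue Bq z)
    exact h1
  have hres : ∀ b : B, φ (IsLocalRing.residue V ⟨ρ b, hmemV b⟩) = χ b := by
    intro b
    rw [← hχ', ← hφ]
    congr 2
    ext
    change ρ b = ρ' (algebraMap B Bq b)
    rw [hρ']
  refine ⟨⟨V, hVtop, hKV, φ.toRingHom.comp (IsLocalRing.residue V), ?_, ?_⟩, ?_⟩
  · intro a
    have h1 := hres (algebraMap K B a)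
    rw [χ.commutes] at h1
    rw [← h1]
    change φ (IsLocalRing.residue V _) = φ (IsLocalRing.residue V _)
    congr 2
    ext
    exact (ρ.commutes a).symm
  · intro x hx
    have h1 : IsLocalRing.residue V x = 0 := by
      rw [IsLocalRing.residue_eq_zero_iff]
      exact hx
    change φ (IsLocalRing.residue V x) = 0
    rw [h1, map_zero]
  · intro b
    exact ⟨hmemV b, hres b⟩

end Bx
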