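import Mathlib
import Pool.Agent.Lib.MP_f80667_ag.ZC.Defs
import Pool.Agent.Lib.MP_f80667_ag.Bx.Hom

/-!
Restriction of places.

Proof of `exists_restr`: `V = j⁻¹(w'.V)` is a valuation ring of `E` which contains `F`, `V ≠ E`
because `g⁻¹ ∉ V`. For `a ∈ V` the value `w'.res (j a) ∈ Ω'` is algebraic over `F` by
`res_algebraic`, so it is in the image of `e` (`Ω` is an algebraic closure of `F`).
-/

namespace Bx

open ZC

universe u

/-- An element of `Ω'` which is algebraic over `F` is in the algebraic closure of `F`. -/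
theorem exists_preimage {F Ω Ω' : Type u} [Field F] [Field Ω] [Field Ω'] [Algebra F Ω]
    [Algebra F Ω'] [IsAlgClosed Ω] (e : Ω →ₐ[F] Ω') {y : Ω'} (hy : IsAlgebraic F y) :
    ∃ a, e a = y := by
  set q : Polynomial Ω := (minpoly F y).map (algebraMap F Ω) with hq
  have hm : minpoly F y ≠ 0 := minpoly.ne_zero hy.isIntegral
  have hs : q.Splits := IsAlgClosed.splits q
  have h1 : (q.map (e : Ω →+* Ω')).roots = q.roots.map (e : Ω →+* Ω') :=
    hs.roots_map (e : Ω →+* Ω')
  have h2 : q.map (e : Ω →+* Ω') = (minpoly F y).map (algebraMap F Ω') := by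
    rw [hq, Polynomial.map_map]
    congr 1
    exact e.comp_algebraMap
  have h3 : y ∈ (q.map (e : Ω →+* Ω')).roots := by
    rw [h2, Polynomial.mem_roots_map hm]
    exact minpoly.aeval F y
  rw [h1, Multiset.mem_map] at h3
  obtain ⟨a, -, ha⟩ := h3
  exact ⟨a, ha⟩

theorem exists_restr {F E K M Ω Ω' : Type u} [Field F] [Field E] [Field K] [Field M] [Field Ω]
    [Field Ω'] [Algebra F E] [Algebra F K] [Algebra K M] [Algebra F Ω] [Algebra K Ω']
    [Algebra F Ω'] [IsScalarTower F K Ω'] [IsAlgClosed Ω] (e : Ω →ₐ[F] Ω') (hE : IsFunField F E)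
    (j : E →+* M) (hj : ∀ a : F, j (algebraMap F E a) = algebraMap K M (algebraMap F K a))
    (w' : Place K M Ω') {g : E} (hg : g ≠ 0) (hgw : j g ∈ w'.V.nonunits) :
    ∃ w : Place F E Ω, (∀ a : E, a ∈ w.V ↔ j a ∈ w'.V) ∧
      ∀ (a : E) (ha : a ∈ w.V) (ha' : j a ∈ w'.V), w'.res ⟨j a, ha'⟩ = e (w.res ⟨a, ha⟩) := by
  have hmem : ∀ a : F, algebraMap F E a ∈ w'.V.comap j := by
    intro a
    show j (algebraMap F E a) ∈ w'.V
    rw [hj]
    exact w'.mem _
  have hne : w'.V.comap j ≠ ⊤ := by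
    intro h
    have h1 : g⁻¹ ∈ w'.V.comap j := by
      rw [h]
      exact ValuationSubring.mem_top _
    have h2 : (j g)⁻¹ ∈ w'.V := by
      rw [← map_inv₀]
      exact h1
    rcases (w'.V.mem_nonunits_iff_or).1 hgw with h3 | h3
    · exact hg ((map_eq_zero j).1 h3)
    · exact h3 h2
  let ψ : w'.V.comap j →+* w'.V :=
    { toFun := fun x => ⟨j x, x.2⟩
      map_one' := by ext; simp
      map_zero' := by ext; simp
      map_mul' := by intro x y; ext; simp
      map_add' := by intro x y; ext; simp }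
  let ρ : w'.V.comap j →+* Ω' := w'.res.comp ψ
  have hρk : ∀ a : F, ρ ⟨algebraMap F E a, hmem a⟩ = algebraMap F Ω' a := by
    intro a
    rw [IsScalarTower.algebraMap_apply F K Ω', ← w'.res_k]
    show w'.res _ = _
    congr 1
    ext
    exact hj a
  have hρ0 : ∀ x : w'.V.comap j, ¬ IsUnit x → ρ x = 0 := by
    intro x hx
    show w'.res _ = 0
    apply w'.res_zero
    intro h
    apply hx
    obtain ⟨v, hv⟩ := h
    have hx0 : (x : E) ≠ 0 := by
      intro h0
      have h5 : (v : w'.V) = 0 := by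
        rw [hv]
        ext
        show j x = 0
        rw [h0, map_zero]
      exact v.ne_zero h5
    have hinv : (x : E)⁻¹ ∈ w'.V.comap j := by
      show j (x : E)⁻¹ ∈ w'.V
      rw [map_inv₀]
      have h6 : ((v⁻¹ : (w'.V)ˣ) : w'.V) * (v : w'.V) = 1 := v.inv_mul
      have h7 : (((v⁻¹ : (w'.V)ˣ) : w'.V) : M) * j x = 1 := by
        rw [hv] at h6
        exact congrArg Subtype.val h6
      have h8 : (j x)⁻¹ = (((v⁻¹ : (w'.V)ˣ) : w'.V) : M) := by
        rw [eq_comm, ← mul_eq_one_iff_eq_inv₀ ((map_ne_zero j).2 hx0)]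
        exact h7
      rw [h8]
      exact ((v⁻¹ : (w'.V)ˣ) : w'.V).2
    exact ⟨⟨x, ⟨(x : E)⁻¹, hinv⟩, by ext; simp [hx0], by ext; simp [hx0]⟩, rfl⟩
  have hpre : ∀ x : w'.V.comap j, ∃ a, e a = ρ x := by
    intro x
    obtain ⟨p, hp, hpx⟩ := res_algebraic hE (w'.V.comap j) hne hmem (algebraMap F Ω') ρ hρk
      hρ0 x
    exact exists_preimage e ⟨p, hp, hpx⟩
  have hρe : ∀ x : w'.V.comap j, ρ x ∈ (e : Ω →+* Ω').range := by
    intro x
    obtain ⟨a, ha⟩ := hpre x
    exact ⟨a, ha⟩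
  have hinj : Function.Injective (e : Ω →+* Ω') := (e : Ω →+* Ω').injective
  let E1 : Ω ≃+* (e : Ω →+* Ω').range := RingEquiv.ofBijective (e : Ω →+* Ω').rangeRestrict
    ⟨fun x y h => hinj (congrArg Subtype.val h), (e : Ω →+* Ω').rangeRestrict_surjective⟩
  let res : w'.V.comap j →+* Ω := (E1.symm : (e : Ω →+* Ω').range →+* Ω).comp
    (ρ.codRestrict (e : Ω →+* Ω').range hρe)
  have hres : ∀ x, e (res x) = ρ x := by
    intro x
    have h1 : E1 (E1.symm (ρ.codRestrict (e : Ω →+* Ω').range hρe x)) =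
        ρ.codRestrict (e : Ω →+* Ω').range hρe x := E1.apply_symm_apply _
    exact congrArg Subtype.val h1
  refine ⟨⟨w'.V.comap j, hne, hmem, res, ?_, ?_⟩, fun a => Iff.rfl, ?_⟩
  · intro a
    apply hinj
    show e (res _) = e _
    rw [hres, hρk, e.commutes]
  · intro x hx
    apply hinj
    show e (res _) = e 0
    rw [hres, map_zero]
    exact hρ0 x hx
  · intro a ha ha'
    exact (hres ⟨a, ha⟩).symm

end Bx
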