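import Pool.Agent.Lib.MP_f80667_ag.Bx.Ext
import Pool.Agent.Lib.MP_f80667_ag.Bx.Restr
import Pool.Agent.Lib.MP_f80667_ag.Bx.Zeros
import Pool.Agent.Lib.MP_f80667_ag.Fa.Bc

/-!
The zeros of a function after base change.
-/

open scoped LinearAlgebra.Projectivization

namespace Bx

open ZC Fa

universe u

/-- Counting: a surjective map of weighted finite sets which does not increase the weights and
preserves the total weight preserves all weighted sums. -/
theorem count {I J Y : Type*} [DecidableEq J] (s : Finset I) (t : Finset J) (ψ : I → J)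
    (hψ : ∀ i ∈ s, ψ i ∈ t) (hs : ∀ j ∈ t, ∃ i ∈ s, ψ i = j) (a : I → ℤ) (b : J → ℤ)
    (hb : ∀ j ∈ t, 0 < b j) (hab : ∀ i ∈ s, b (ψ i) ≤ a i)
    (hsum : ∑ i ∈ s, a i = ∑ j ∈ t, b j) (y : J → Y) :
    ∑ i ∈ s, Finsupp.single (y (ψ i)) (a i) = ∑ j ∈ t, Finsupp.single (y j) (b j) := by
  have h1 : ∀ j ∈ t, b j ≤ ∑ i ∈ s.filter (fun i => ψ i = j), a i := by
    intro j hj
    obtain ⟨i, hi, rfl⟩ := hs j hj
    refine (hab i hi).trans ?_
    refine Finset.single_le_sum (f := a) (fun i' hi' => ?_) (Finset.mem_filter.2 ⟨hi, rfl⟩)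
    rw [Finset.mem_filter] at hi'
    exact (hb _ (hψ i' hi'.1)).le.trans (hab i' hi'.1)
  have h2 : ∑ j ∈ t, ∑ i ∈ s.filter (fun i => ψ i = j), a i = ∑ i ∈ s, a i :=
    Finset.sum_fiberwise_of_maps_to hψ _
  have h3 : ∀ j ∈ t, b j = ∑ i ∈ s.filter (fun i => ψ i = j), a i := by
    rw [← Finset.sum_eq_sum_iff_of_le h1, h2, hsum]
  have h4 : ∑ i ∈ s, Finsupp.single (y (ψ i)) (a i) =
      ∑ j ∈ t, ∑ i ∈ s.filter (fun i => ψ i = j), Finsupp.single (y (ψ i)) (a i) :=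
    (Finset.sum_fiberwise_of_maps_to hψ _).symm
  rw [h4]
  refine Finset.sum_congr rfl fun j hj => ?_
  rw [h3 j hj]
  have h5 : ∀ i ∈ s.filter (fun i => ψ i = j), Finsupp.single (y (ψ i)) (a i) =
      Finsupp.single (y j) (a i) := by
    intro i hi
    rw [(Finset.mem_filter.1 hi).2]
  rw [Finset.sum_congr rfl h5]
  exact (map_sum (Finsupp.singleAddHom (y j)) a _).symm

section ord

variable {F E K M Ω Ω' : Type u} [Field F] [Field E] [Field K] [Field M] [Field Ω] [Field Ω']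
  [Algebra F E] [Algebra K M] [Algebra F Ω] [Algebra K Ω']

theorem ord_pos {w : Place F E Ω} {g : E} {m : ℤ} (h : w.IsOrd g m) (hg : g ∈ w.V.nonunits) :
    0 < m := by
  obtain ⟨π, h1, h2, -, h4⟩ := Place.ord_aux h
  rw [ValuationSubring.mem_nonunits_iff, h4] at hg
  by_contra hm
  exact absurd hg (not_lt.2 (one_le_zpow_of_nonpos₀ (zero_lt_iff.2 h2) h1.le (not_lt.1 hm)))

theorem ord_le {w : Place F E Ω} {w' : Place K M Ω'} (j : E →+* M)
    (hV : ∀ a, a ∈ w.V → j a ∈ w'.V) (hn : ∀ a, a ∈ w.V.nonunits → j a ∈ w'.V.nonunits) {g : E}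
    {m m' : ℤ} (h : w.IsOrd g m) (h' : w'.IsOrd (j g) m') (hm : 0 ≤ m) : m ≤ m' := by
  obtain ⟨π, u, hπ, hx, hu, hu', hu0, rfl⟩ := h
  obtain ⟨ϖ, h1, h2, h3, h4⟩ := Place.ord_aux h'
  have hπn : π ∈ w.V.nonunits := by
    rw [hx, div_self hπ]
    exact w.V.one_mem
  have h5 : w'.V.valuation (j π) ≤ w'.V.valuation ϖ := by
    apply h3
    rw [← ValuationSubring.mem_nonunits_iff]
    exact hn π hπn
  have h6 : w'.V.valuation (j u) = 1 := by
    refine le_antisymm ((w'.V.valuation_le_one_iff _).2 (hV u hu)) ?_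
    have h7 := (w'.V.valuation_le_one_iff _).2 (hV _ hu')
    rw [map_inv₀, map_inv₀, inv_le_one₀ (zero_lt_iff.2 ((map_ne_zero _).2
      ((map_ne_zero j).2 hu0)))] at h7
    exact h7
  rw [map_mul, map_mul, h6, one_mul, map_zpow₀, map_zpow₀] at h4
  obtain ⟨d, rfl⟩ := Int.eq_ofNat_of_zero_le hm
  have h8 : w'.V.valuation (j π) ^ (d : ℤ) ≤ w'.V.valuation ϖ ^ (d : ℤ) := by
    rw [zpow_natCast, zpow_natCast]
    exact pow_le_pow_left₀ zero_le' h5 d
  rw [h4] at h8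
  by_contra hlt
  rw [not_le] at hlt
  exact absurd h8 (not_le.2 (zpow_lt_zpow_right_of_lt_one₀ (zero_lt_iff.2 h2) h1 hlt))

end ord

section main

variable {F E K Ω Ω' : Type u} [Field F] [CharZero F] [Field E] [Field K] [Field Ω] [Field Ω']
  [Algebra F E] [Algebra F K] [Algebra F Ω] [Algebra K Ω'] [Algebra F Ω'] [IsScalarTower F K Ω']
  [IsAlgClosed Ω] [IsAlgClosed Ω']

theorem zeros_bc (e : Ω →ₐ[F] Ω') (hE : IsFunField F E) {g : E} (hg : Transcendental F g)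
    (S : Split F E K g) {N : ℕ} (p : Fin N → E) (T : Finset (Place F E Ω))
    (m : Place F E Ω → ℤ) (x : Place F E Ω → ℙ Ω (Fin N → Ω))
    (h1 : ∀ w, w ∈ T ↔ g ∈ w.V.nonunits) (h2 : ∀ w ∈ T, w.IsOrd g (m w) ∧ w.IsVal p (x w)) :
    ∃ (T' : ∀ i, Finset (Place K (S.M i) Ω')) (m' : ∀ i, Place K (S.M i) Ω' → ℤ)
      (x' : ∀ i, Place K (S.M i) Ω' → ℙ Ω' (Fin N → Ω')),
      (∀ i w', w' ∈ T' i ↔ S.jE i g ∈ w'.V.nonunits) ∧
      (∀ i, ∀ w' ∈ T' i, w'.IsOrd (S.jE i g) (m' i w') ∧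
        w'.IsVal (fun j => S.jE i (p j)) (x' i w')) ∧
      ∑ i, ∑ w' ∈ T' i, Finsupp.single (x' i w') (m' i w') =
        ∑ w ∈ T, Finsupp.single (mapPt (e : Ω →+* Ω') (x w)) (m w) := by
  classical
  have hcK : CharZero K := charZero_of_injective_algebraMap (algebraMap F K).injective
  have hg0 : g ≠ 0 := by
    rintro rfl
    exact hg ⟨Polynomial.X, Polynomial.X_ne_zero, by simp⟩
  choose T' m' hT' hm' using fun i => exists_zeros (Ω := Ω') (S.funField i) (S.transc i)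
  -- restriction
  have hres : ∀ i (w' : Place K (S.M i) Ω'), ∃ w : Place F E Ω, w' ∈ T' i →
      (∀ a : E, a ∈ w.V ↔ S.jE i a ∈ w'.V) ∧
      ∀ (a : E) (ha : a ∈ w.V) (ha' : S.jE i a ∈ w'.V),
        w'.res ⟨S.jE i a, ha'⟩ = e (w.res ⟨a, ha⟩) := by
    intro i w'
    by_cases hw' : w' ∈ T' i
    · obtain ⟨w, hw⟩ := exists_restr e hE (S.jE i) (S.comm i) w' hg0 ((hT' i w').1 hw')
      exact ⟨w, fun _ => hw⟩
    · obtain ⟨w⟩ : Nonempty (Place F E Ω) := by
        obtain ⟨T₀, -, h₀, -⟩ := exists_zeros (Ω := Ω) hE hg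
        by_contra hemp
        rw [not_nonempty_iff] at hemp
        have h3 := Dz.sum_zeros hE hg (∅ : Finset (Place F E Ω)) (fun _ => 0)
          (fun w => (hemp.false w).elim) (fun w => (hemp.false w).elim)
        rw [Finset.sum_empty] at h3
        have hfin := Dz.finite_adjoin hE hg
        have h4 : 0 < Module.finrank (IntermediateField.adjoin F {g}) E := Module.finrank_pos
        omega
      exact ⟨w, fun h => absurd h hw'⟩
  choose ψ hψ using hres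
  -- nonunits
  have hnu : ∀ {M : Type u} [Field M] [Algebra K M] (j : E →+* M) (w : Place F E Ω)
      (w' : Place K M Ω') (hV : ∀ a : E, a ∈ w.V → j a ∈ w'.V)
      (_ : ∀ (a : E) (ha : a ∈ w.V) (ha' : j a ∈ w'.V),
        w'.res ⟨j a, ha'⟩ = e (w.res ⟨a, ha⟩)) (a : E), a ∈ w.V.nonunits →
        j a ∈ w'.V.nonunits := by
    intro M _ _ j w w' hV hr a ha
    have ha1 : a ∈ w.V := w.V.nonunits_subset ha
    have h3 := hr a ha1 (hV a ha1)
    rw [(res_eq_zero_iff w ⟨a, ha1⟩).2 ha, map_zero] at h3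
    exact (res_eq_zero_iff w' _).1 h3
  have hψT : ∀ i, ∀ w' ∈ T' i, ψ i w' ∈ T := by
    intro i w' hw'
    obtain ⟨hV, hr⟩ := hψ i w' hw'
    rw [h1]
    have hgn := (hT' i w').1 hw'
    rw [ValuationSubring.mem_nonunits_iff_or] at hgn ⊢
    right
    rw [hV, map_inv₀]
    exact hgn.resolve_left ((map_ne_zero _).2 hg0)
  have hsurj : ∀ w ∈ T, ∃ i, ∃ w' ∈ T' i, ψ i w' = w := by
    intro w hw
    obtain ⟨i, w', hw'⟩ := exists_ext e S w hg0 ((h1 w).1 hw)
    have hV' : ∀ a, a ∈ w.V → S.jE i a ∈ w'.V := fun a ha => (hw' a ha).1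
    have hr' : ∀ (a : E) (ha : a ∈ w.V) (ha' : S.jE i a ∈ w'.V),
        w'.res ⟨S.jE i a, ha'⟩ = e (w.res ⟨a, ha⟩) := fun a ha _ => (hw' a ha).2
    have hmem : w' ∈ T' i := (hT' i w').2 (hnu _ w w' hV' hr' g ((h1 w).1 hw))
    obtain ⟨hV, hr⟩ := hψ i w' hmem
    refine ⟨i, w', hmem, ?_⟩
    have hVV : (ψ i w').V = w.V := by
      ext a
      rw [hV]
      refine ⟨fun ha => ?_, hV' a⟩
      by_contra hna
      have h3 : a⁻¹ ∈ w.V.nonunits := by
        rw [ValuationSubring.mem_nonunits_iff_or, inv_inv]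
        exact Or.inr hna
      have h4 := hnu _ w w' hV' hr' _ h3
      rw [ValuationSubring.mem_nonunits_iff_or, map_inv₀, inv_inv] at h4
      rcases h4 with h4 | h4
      · have h5 : a = 0 := by simpa using h4
        rw [h5] at hna
        exact hna w.V.zero_mem
      · exact h4 ha
    refine Place.ext' hVV fun a ha ha' => ?_
    apply (e : Ω →+* Ω').injective
    change e _ = e _
    rw [← hr a ha (hV' a ha'), ← hr' a ha' (hV' a ha')]
  have hval : ∀ i, ∀ w' ∈ T' i, w'.IsVal (fun j => S.jE i (p j))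
      (mapPt (e : Ω →+* Ω') (x (ψ i w'))) := by
    intro i w' hw'
    obtain ⟨hV, hr⟩ := hψ i w' hw'
    obtain ⟨c, hc, h0, hx⟩ := (h2 _ (hψT i w' hw')).2
    have hc' : ∀ l, S.jE i c * S.jE i (p l) ∈ w'.V := by
      intro l
      rw [← map_mul]
      exact (hV _).1 (hc l)
    have hcr : ∀ l, w'.res ⟨S.jE i c * S.jE i (p l), hc' l⟩ =
        e ((ψ i w').res ⟨c * p l, hc l⟩) := by
      intro l
      rw [← hr _ (hc l) ((hV _).1 (hc l))]
      congr 1
      exact Subtype.ext (map_mul _ _ _).symm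
    have h0' : (fun l => w'.res ⟨S.jE i c * S.jE i (p l), hc' l⟩) ≠ 0 := by
      intro h3
      apply h0
      funext l
      have h4 := congrFun h3 l
      rw [hcr] at h4
      exact (map_eq_zero (e : Ω →+* Ω')).1 h4
    refine ⟨S.jE i c, hc', h0', ?_⟩
    rw [hx]
    obtain ⟨a, ha, hrep⟩ := exists_rep _ h0
    rw [mapPt, Projectivization.mk_eq_mk_iff']
    refine ⟨(e : Ω →+* Ω') a, ?_⟩
    funext l
    rw [Pi.smul_apply, smul_eq_mul, hcr, hrep]
    change e a * e _ = e (a * _)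
    rw [map_mul]
  have hsum : ∑ s ∈ Finset.univ.sigma T', m' s.1 s.2 = ∑ w ∈ T, m w := by
    rw [Finset.sum_sigma, Dz.sum_zeros hE hg T m h1 fun w hw => (h2 w hw).1, ← S.rank,
      Nat.cast_sum]
    refine Finset.sum_congr rfl fun i _ => ?_
    exact Dz.sum_zeros (S.funField i) (S.transc i) (T' i) (m' i) (hT' i) (hm' i)
  refine ⟨T', m', fun i w' => mapPt (e : Ω →+* Ω') (x (ψ i w')), hT',
    fun i w' hw' => ⟨hm' i w' hw', hval i w' hw'⟩, ?_⟩
  have h3 := count (Finset.univ.sigma T') T (fun s => ψ s.1 s.2)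
    (fun s hs => hψT s.1 s.2 (Finset.mem_sigma.1 hs).2)
    (fun w hw => by
      obtain ⟨i, w', hw', rfl⟩ := hsurj w hw
      exact ⟨⟨i, w'⟩, Finset.mem_sigma.2 ⟨Finset.mem_univ _, hw'⟩, rfl⟩)
    (fun s => m' s.1 s.2) m (fun w hw => ord_pos (h2 w hw).1 ((h1 w).1 hw))
    (fun s hs => by
      have hs2 := (Finset.mem_sigma.1 hs).2
      obtain ⟨hV, hr⟩ := hψ s.1 s.2 hs2
      have hV' : ∀ a, a ∈ (ψ s.1 s.2).V → S.jE s.1 a ∈ s.2.V := fun a ha => (hV a).1 ha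
      have hT2 := hψT s.1 s.2 hs2
      exact ord_le (S.jE s.1) hV' (hnu _ _ _ hV' hr) (h2 _ hT2).1 (hm' s.1 s.2 hs2)
        (ord_pos (h2 _ hT2).1 ((h1 _).1 hT2)).le)
    hsum (fun w => mapPt (e : Ω →+* Ω') (x w))
  rw [← h3, Finset.sum_sigma]

end main

end Bx
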