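import Pool.Agent.Lib.MP_f80667_ag.Bx.Split
import Pool.Agent.Lib.MP_f80667_ag.Bx.Hom

/-!
Every place `w` of `E/F` with `g` in the maximal ideal extends to a place of one of the factors
`M i` of `E ⊗ K` over `K`, with compatible residues.
-/

open scoped TensorProduct

namespace Bx

open ZC Fa

universe u

variable {F E K Ω Ω' : Type u} [Field F] [Field E] [Field K] [Field Ω] [Field Ω'] [Algebra F E]
  [Algebra F K] [Algebra F Ω] [Algebra K Ω'] [Algebra F Ω'] [IsScalarTower F K Ω']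
  [IsAlgClosed Ω']

theorem exists_ext (e : Ω →ₐ[F] Ω') {g : E} (S : Split F E K g) (w : Place F E Ω) (hg : g ≠ 0)
    (hw : g ∈ w.V.nonunits) :
    ∃ (i : S.ι) (w' : Place K (S.M i) Ω'), ∀ (a : E) (ha : a ∈ w.V),
      ∃ ha' : S.jE i a ∈ w'.V, w'.res ⟨S.jE i a, ha'⟩ = e (w.res ⟨a, ha⟩) := by
  classical
  let : Algebra F w.V := (kV w).toAlgebra
  let hF : ∀ i, Algebra F (S.M i) := fun i =>
    ((algebraMap K (S.M i)).comp (algebraMap F K)).toAlgebra
  have hT : ∀ i, IsScalarTower F K (S.M i) := fun i => IsScalarTower.of_algebraMap_eq fun a => rfl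
  let jV : ∀ i, w.V →ₐ[F] S.M i := fun i =>
    { (S.jE i).comp w.V.subtype with commutes' := fun a => S.comm i a }
  let rV : w.V →ₐ[F] Ω' :=
    { (e : Ω →+* Ω').comp w.res with
      commutes' := fun a => by
        change e (w.res (kV w a)) = algebraMap F Ω' a
        rw [← e.commutes]
        congr 1
        exact w.res_k a }
  let ρ : ∀ i, K ⊗[F] w.V →ₐ[K] S.M i := fun i =>
    Algebra.TensorProduct.lift (Algebra.ofId K (S.M i)) (jV i) (fun x y => Commute.all _ _)
  let χ : K ⊗[F] w.V →ₐ[K] Ω' :=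
    Algebra.TensorProduct.lift (Algebra.ofId K Ω') rV (fun x y => Commute.all _ _)
  have hρ : ∀ i (c : K) (a : w.V), ρ i (c ⊗ₜ a) = algebraMap K (S.M i) c * S.jE i a := by
    intro i c a
    exact Algebra.TensorProduct.lift_tmul _ _ _ _ _
  have hχ : ∀ (c : K) (a : w.V), χ (c ⊗ₜ a) = algebraMap K Ω' c * e (w.res a) := by
    intro c a
    exact Algebra.TensorProduct.lift_tmul _ _ _ _ _
  -- injectivity
  have hinj : ∀ x : K ⊗[F] w.V, (∀ i, ρ i x = 0) → x = 0 := by
    intro x hx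
    obtain ⟨c, rfl⟩ := TensorProduct.eq_repr_basis_left (Module.Free.chooseBasis F K) x
    set b := Module.Free.chooseBasis F K with hb
    have h1 := S.inj c.support (fun l => b l) (b.linearIndependent.comp _ Subtype.val_injective)
      (fun l => (c l : E)) (by
        intro i
        have h2 := hx i
        rw [Finsupp.sum, map_sum] at h2
        rw [← h2, ← Finset.sum_coe_sort c.support]
        refine Finset.sum_congr rfl fun l _ => ?_
        rw [hρ, mul_comm])
    have h3 : ∀ l, c l = 0 := by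
      intro l
      by_contra hl
      have h4 := congrFun h1 ⟨l, Finsupp.mem_support_iff.2 hl⟩
      exact hl (Subtype.ext h4)
    rw [Finsupp.sum]
    exact Finset.sum_eq_zero fun l _ => by rw [h3, TensorProduct.tmul_zero]
  have hprime : (RingHom.ker χ).IsPrime := RingHom.ker_isPrime χ
  obtain ⟨i, -, hi⟩ := (Ideal.IsPrime.inf_le' (s := Finset.univ)
    (f := fun i => RingHom.ker (ρ i)) hprime).1 (by
      intro x hx
      have h1 : x = 0 := hinj x fun i => by
        have h2 := (Finset.inf_le (f := fun i => RingHom.ker (ρ i)) (Finset.mem_univ i)) hx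
        exact h2
      rw [h1]
      exact zero_mem _)
  have hgV : g ∈ w.V := w.V.nonunits_subset hw
  obtain ⟨w', hw'⟩ := exists_place_of_hom (S.funField i) (ρ i) χ hi (b₀ := 1 ⊗ₜ ⟨g, hgV⟩)
    (by
      rw [hρ, map_one, one_mul]
      exact (map_ne_zero _).2 hg)
    (by
      rw [hχ, map_one, one_mul, (res_eq_zero_iff w ⟨g, hgV⟩).2 hw, map_zero])
  refine ⟨i, w', fun a ha => ?_⟩
  obtain ⟨h1, h2⟩ := hw' (1 ⊗ₜ ⟨a, ha⟩)
  have h3 : ρ i (1 ⊗ₜ ⟨a, ha⟩) = S.jE i a := by rw [hρ, map_one, one_mul]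
  have h4 : χ (1 ⊗ₜ ⟨a, ha⟩) = e (w.res ⟨a, ha⟩) := by rw [hχ, map_one, one_mul]
  have h5 : S.jE i a ∈ w'.V := by rw [← h3]; exact h1
  refine ⟨h5, ?_⟩
  rw [← h4, ← h2]
  congr 1
  exact Subtype.ext h3.symm

end Bx
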