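import Pool.Agent.Lib.MP_f80667_ag.Bx.Glb
import Pool.Agent.Lib.MP_f80667_ag.LF.GoodN

/-!
The theorem on families over the completions of a number field and on the adelic groups.
-/

open MvPolynomial IsDedekindDomain NumberField

namespace ZC

variable {F : Type} [Field F] [NumberField F] {N n r : ℕ} {κ : Type}
  {h : κ → MvPolynomial (Fin N) F} {A : Fin r → Matrix (Fin n) (Fin n) (MvPolynomial (Fin N) F)}

theorem good_FK (v : HeightOneSpectrum (𝓞 F)) (s : ℕ) :
    Good (FK F v) (AlgebraicClosure (FK F v)) s :=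
  Pool.Agent.Lib.MP_f80667_ag.LF.good_adic F v s

theorem charZero_FK (v : HeightOneSpectrum (𝓞 F)) : CharZero (FK F v) :=
  charZero_of_injective_algebraMap (algebraMap F (FK F v)).injective

theorem fin_part (hh : ∀ j, ∃ d, (h j).IsHomogeneous d)
    (hA : ∀ i, ∃ e, ∀ a b, (A i a b).IsHomogeneous e) (hn : 8 * r < n)
    (v : HeightOneSpectrum (𝓞 F)) :
    PfBij (FK F v) (hE (FK F v) h) (AE (FK F v) A) := by
  have := charZero_FK v
  exact ⟨fun z hz => fam_surj (good_FK v) (hK_hom hh) (AK_hom hA) (by omega) hz, fun z hz =>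
    ⟨fun h1 => pushW_ratEq h1, fun h1 => fam_inj (good_FK v) (hK_hom hh) (AK_hom hA) hn hz h1⟩⟩

theorem fin_p1 (hh : ∀ j, ∃ d, (h j).IsHomogeneous d)
    (hA : ∀ i, ∃ e, ∀ a b, (A i a b).IsHomogeneous e) (hn : 8 * r < n)
    (v : HeightOneSpectrum (𝓞 F)) :
    Function.Bijective (p1 (FK F v) (hE (FK F v) h) (AE (FK F v) A)) := by
  have := charZero_FK v
  exact pushF1_bij (good_FK v) (hK_hom hh) (AK_hom hA) hn

theorem fin_transfer (hh : ∀ j, ∃ d, (h j).IsHomogeneous d)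
    (hA : ∀ i, ∃ e, ∀ a b, (A i a b).IsHomogeneous e) (hn : 8 * r < n)
    (hreal : ∀ v : InfinitePlace F, v.IsReal → PfBijN (IK F v) (hE (IK F v) h) (AE (IK F v) A)) :
    ∃ φ : LHat (FA2 h A) ≃ LHat (FA h),
      (∀ (z : LHat (FA2 h A)) (m : ℕ+) (c : ZA2 h A), z.Rep m (clA2 c) →
        (φ z).Rep m (clA (pfA c))) ∧
      (PfOnto F h A →
        (∀ z, ImD2 hh hA z ↔ ImD hh (φ z)) ∧
        ∀ (B B' T : Type) [Zero T] (b : B → B') (PW : LHat (FA h) → B → T)
          (PX : LHat (FA2 h A) → B' → T), (∀ z β, PX z (b β) = PW (φ z) β) →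
          (∀ y, (∀ β, PW y β = 0) → ImD hh y) → ∀ z, (∀ β, PX z β = 0) → ImD2 hh hA z) :=
  transfer_onto hh hA (fun v => fin_p1 hh hA hn v) hreal

end ZC
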