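import Pool.Agent.Lib.MP_f80667_ag.Fa.Adl

/-!
A surjective homomorphism induces a surjective map of the completions `lim G/mG`.

Proof: let `y ∈ LHat H`. Choose `a k ∈ G` with `φ (a k)` a representative of `y` modulo `(k+1)!` and
`a (k+1) - a k ∈ (k+1)! G`: given `a k`, let `φ b` represent `y` modulo `(k+2)!`; then
`φ (b - a k) ∈ (k+1)! H`, say `φ (b - a k) = (k+1)! φ u`, and `a (k+1) = a k + (k+1)! u + ...`. The
classes of the `a m` modulo `m` are an element `x` of `LHat G` with image `y`.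
-/

namespace ZC

variable {G H : Type*} [AddCommGroup G] [AddCommGroup H]

theorem mk_eq_iff {m : ℕ} {a b : G} :
    (QuotientAddGroup.mk a : G ⧸ mlt G m) = QuotientAddGroup.mk b ↔ ∃ c, m • c = b - a := by
  rw [QuotientAddGroup.eq]
  constructor
  · rintro ⟨c, hc⟩
    exact ⟨c, by rw [sub_eq_neg_add]; exact hc⟩
  · rintro ⟨c, hc⟩
    exact ⟨c, by rw [sub_eq_neg_add] at hc; exact hc⟩

theorem LHat.Rep.of_dvd {x : LHat G} {m m' : ℕ+} (h : (m : ℕ) ∣ m') {a : G} (hx : x.Rep m' a) :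
    x.Rep m a :=
  x.2 m m' (PNat.dvd_iff.2 h) a hx

theorem LHat.Rep.sub {x : LHat G} {m : ℕ+} {a b : G} (ha : x.Rep m a) (hb : x.Rep m b) :
    ∃ c, (m : ℕ) • c = b - a :=
  mk_eq_iff.1 (ha.symm.trans hb)

theorem LHat.Rep.congr {x : LHat G} {m : ℕ+} {a b c : G} (ha : x.Rep m a)
    (hc : (m : ℕ) • c = b - a) : x.Rep m b :=
  ha.trans (mk_eq_iff.2 ⟨c, hc⟩)

/-- The number `(k+1)!` as a positive integer. -/
def fct (k : ℕ) : ℕ+ := ⟨(k + 1).factorial, Nat.factorial_pos _⟩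

theorem fct_dvd (k : ℕ) : (fct k : ℕ) ∣ fct (k + 1) := Nat.factorial_dvd_factorial (Nat.le_succ _)

theorem exists_step (φ : G →+ H) (hφ : Function.Surjective φ) (y : LHat H) (k : ℕ) (a : G)
    (ha : y.Rep (fct k) (φ a)) :
    ∃ a' : G, y.Rep (fct (k + 1)) (φ a') ∧ ∃ c, (fct k : ℕ) • c = a' - a := by
  obtain ⟨b', hb'⟩ := y.exists_rep (fct (k + 1))
  obtain ⟨b, rfl⟩ := hφ b'
  obtain ⟨c', hc'⟩ := ha.sub (hb'.of_dvd (fct_dvd k))
  obtain ⟨c, rfl⟩ := hφ c'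
  refine ⟨a + (fct k : ℕ) • c, ?_, c, by rw [add_sub_cancel_left]⟩
  have h1 : φ (a + (fct k : ℕ) • c) = φ b := by
    rw [map_add, map_nsmul, hc', add_sub_cancel]
  rw [h1]
  exact hb'

/-- The sequence of the proof. -/
noncomputable def sqn (φ : G →+ H) (hφ : Function.Surjective φ) (y : LHat H) :
    ∀ k : ℕ, {a : G // y.Rep (fct k) (φ a)}
  | 0 => ⟨(hφ (y.exists_rep (fct 0)).choose).choose, by
      rw [(hφ (y.exists_rep (fct 0)).choose).choose_spec]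
      exact (y.exists_rep (fct 0)).choose_spec⟩
  | k + 1 => ⟨(exists_step φ hφ y k (sqn φ hφ y k).1 (sqn φ hφ y k).2).choose,
      (exists_step φ hφ y k (sqn φ hφ y k).1 (sqn φ hφ y k).2).choose_spec.1⟩

theorem sqn_succ (φ : G →+ H) (hφ : Function.Surjective φ) (y : LHat H) (k : ℕ) :
    ∃ c, (fct k : ℕ) • c = (sqn φ hφ y (k + 1)).1 - (sqn φ hφ y k).1 :=
  (exists_step φ hφ y k (sqn φ hφ y k).1 (sqn φ hφ y k).2).choose_spec.2

theorem sqn_le (φ : G →+ H) (hφ : Function.Surjective φ) (y : LHat H) (k l : ℕ) :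
    ∃ c, (fct k : ℕ) • c = (sqn φ hφ y (k + l)).1 - (sqn φ hφ y k).1 := by
  induction l with
  | zero => exact ⟨0, by simp⟩
  | succ l ih =>
    obtain ⟨c, hc⟩ := ih
    obtain ⟨c', hc'⟩ := sqn_succ φ hφ y (k + l)
    have h1 : (fct k : ℕ) ∣ fct (k + l) := Nat.factorial_dvd_factorial (by omega)
    obtain ⟨q, hq⟩ := h1
    refine ⟨c + q • c', ?_⟩
    rw [smul_add, hc, smul_smul, ← hq, hc', ← add_assoc]
    abel

theorem LHat.map_surjective (φ : G →+ H) (hφ : Function.Surjective φ) :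
    Function.Surjective (LHat.map φ) := by
  intro y
  have hdvd : ∀ m : ℕ+, (m : ℕ) ∣ fct m := fun m =>
    (Nat.dvd_factorial m.pos le_rfl).trans (Nat.factorial_dvd_factorial (Nat.le_succ _))
  let x : LHat G := ⟨fun m => QuotientAddGroup.mk (sqn φ hφ y m).1, by
    intro m m' hm a ha
    have hm' : (m : ℕ) ∣ m' := PNat.dvd_iff.1 hm
    obtain ⟨c, hc⟩ := mk_eq_iff.1 ha
    obtain ⟨l, hl⟩ := Nat.exists_eq_add_of_le (Nat.le_of_dvd m'.pos hm')
    obtain ⟨c', hc'⟩ := sqn_le φ hφ y m l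
    rw [← hl] at hc'
    obtain ⟨q, hq⟩ := hm'
    obtain ⟨q', hq'⟩ := hdvd m
    refine mk_eq_iff.2 ⟨q • c + q' • c', ?_⟩
    rw [smul_add, smul_smul, smul_smul, ← hq, ← hq', hc, hc']
    abel⟩
  refine ⟨x, LHat.ext_rep fun m => ?_⟩
  refine ⟨φ (sqn φ hφ y m).1, ?_, (sqn φ hφ y m).2.of_dvd (hdvd m)⟩
  exact LHat.Rep.map φ (x := x) (a := (sqn φ hφ y m).1) rfl

end ZC
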