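import Pool.Agent.Lib.MP_f80667_ag.Fa.Sur

/-!
If every point of the base over a finite extension of `k` is the image of a point of the family over
the same field, every zero-cycle of the base is the push-forward of a zero-cycle of the family.
(Compare `fam_surj` in `Fa/Sur.lean`.)
-/

open scoped LinearAlgebra.Projectivization

namespace ZC

open Fa ZCTr

universe u

theorem lift_cyc {k Ω : Type u} [Field k] [Field Ω] [Algebra k Ω] [IsAlgClosure k Ω]
    {N n r : ℕ} {κ : Type} {h : κ → MvPolynomial (Fin N) k}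
    {A : Fin r → Matrix (Fin n) (Fin n) (MvPolynomial (Fin N) k)}
    (hh : ∀ j, ∃ d, (h j).IsHomogeneous d) (hA : ∀ i, ∃ e, ∀ a b, (A i a b).IsHomogeneous e)
    (H : ∀ (L : Type u) [Field L] [Algebra k L] [FiniteDimensional k L] (w : Fin N → L), w ≠ 0 →
      Zer h L w → ∃ x : Fin n → L, x ≠ 0 ∧ Zer2 h A L w x)
    {z : ℙ Ω (Fin N → Ω) →₀ ℤ} (hz : z ∈ cyc Ω h) : ∃ y ∈ cyc2 Ω h A, pushW Ω y = z := by
  have : IsAlgClosed Ω := IsAlgClosure.isAlgClosed k
  have : Algebra.IsAlgebraic k Ω := IsAlgClosure.isAlgebraic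
  have key : z ∈ AddSubgroup.map (pushW Ω) (cyc2 Ω h A) := by
    refine cyc_mem_of_tr (k := k) _ z hz.2 ?_
    intro M₀ hM₀ P hP _
    have hZ : Zer h M₀ P.rep := (zer_mapPt_iff hh M₀.val P).1 (hz.1 _ hP)
    obtain ⟨x, hx, hq⟩ := H M₀ P.rep P.rep_nonzero hZ
    refine ⟨tr2 k Ω P (Projectivization.mk M₀ x hx), tr2_mem_cyc2 hh hA _ _ ?_, fst_tr2 Ω P _⟩
    have h4 := (zer2_mk_iff hh hA P.rep P.rep_nonzero x hx).2 hq
    rwa [Projectivization.mk_rep] at h4
  obtain ⟨z', hz', h1⟩ := key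
  exact ⟨z', hz', h1⟩

end ZC
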