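import Pool.Agent.Lib.MP_f80667_ag.Bx.Cnt

/-!
Base change of rational equivalence: a zero-cycle over `F` which is rationally equivalent to `0` is
rationally equivalent to `0` over every extension field `K` of `F`.
-/

open scoped LinearAlgebra.Projectivization

namespace Bx

open ZC Fa

universe u

theorem adjoin_inv {K M : Type*} [Field K] [Field M] [Algebra K M] (a : M) :
    IntermediateField.adjoin K {a⁻¹} = IntermediateField.adjoin K {a} := by
  apply le_antisymm
  · rw [IntermediateField.adjoin_simple_le_iff]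
    exact inv_mem (IntermediateField.mem_adjoin_simple_self K a)
  · rw [IntermediateField.adjoin_simple_le_iff]
    have h3 := IntermediateField.mem_adjoin_simple_self K a⁻¹
    simpa using inv_mem h3

theorem transc_inv {K M : Type*} [Field K] [Field M] [Algebra K M] {a : M}
    (h : Transcendental K a) : Transcendental K a⁻¹ := fun h' => h (by simpa using h'.inv)

/-- The same factors for the inverse function. -/
def Split.inv {F E K : Type u} [Field F] [Field E] [Field K] [Algebra F E] [Algebra F K] {g : E}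
    (S : Split F E K g) : Split F E K g⁻¹ where
  ι := S.ι
  M := S.M
  jE := S.jE
  comm := S.comm
  funField := S.funField
  transc i := by
    rw [map_inv₀]
    exact transc_inv (S.transc i)
  rank := by
    rw [adjoin_inv g, ← S.rank]
    refine Finset.sum_congr rfl fun i _ => ?_
    rw [map_inv₀, adjoin_inv]
  inj := S.inj

/-- An algebraic function has neither zeros nor poles. -/
theorem mem_of_algebraic {k E Ω : Type u} [Field k] [Field E] [Field Ω] [Algebra k E]
    [Algebra k Ω] (w : Place k E Ω) {y : E} (hy : IsAlgebraic k y) : y ∈ w.V := by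
  obtain ⟨p, hp, hpy⟩ := hy.isIntegral
  have h3 : IsIntegral w.V.valuation.integer y := by
    let φ : k →+* w.V.valuation.integer :=
      { toFun := fun c => ⟨algebraMap k E c, (w.V.valuation_le_one_iff _).2 (w.mem c)⟩
        map_one' := by ext; simp
        map_zero' := by ext; simp
        map_mul' := by intro x y; ext; simp
        map_add' := by intro x y; ext; simp }
    refine ⟨p.map φ, hp.map φ, ?_⟩
    rw [Polynomial.eval₂_map]
    exact hpy
  have h4 := (Valuation.Integers.mem_of_integral
    (Valuation.integer.integers w.V.valuation) h3)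
  exact (w.V.valuation_le_one_iff _).1 h4

section main

variable {F K Ω Ω' : Type u} [Field F] [CharZero F] [Field K] [Field Ω] [Field Ω']
  [Algebra F K] [Algebra F Ω] [Algebra K Ω'] [Algebra F Ω'] [IsScalarTower F K Ω']
  [IsAlgClosed Ω] [IsAlgClosed Ω']

/-- The poles of a function after base change. -/
theorem poles_bc (e : Ω →ₐ[F] Ω') {E : Type u} [Field E] [Algebra F E] (hE : IsFunField F E)
    {g : E} (hg : Transcendental F g) (S : Split F E K g) {N : ℕ} (p : Fin N → E)
    (T : Finset (Place F E Ω)) (m : Place F E Ω → ℤ) (x : Place F E Ω → ℙ Ω (Fin N → Ω))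
    (h1 : ∀ w, w ∈ T ↔ g⁻¹ ∈ w.V.nonunits) (h2 : ∀ w ∈ T, w.IsOrd g⁻¹ (m w) ∧ w.IsVal p (x w)) :
    ∃ (T' : ∀ i, Finset (Place K (S.M i) Ω')) (m' : ∀ i, Place K (S.M i) Ω' → ℤ)
      (x' : ∀ i, Place K (S.M i) Ω' → ℙ Ω' (Fin N → Ω')),
      (∀ i w', w' ∈ T' i ↔ S.jE i g⁻¹ ∈ w'.V.nonunits) ∧
      (∀ i, ∀ w' ∈ T' i, w'.IsOrd (S.jE i g⁻¹) (m' i w') ∧
        w'.IsVal (fun j => S.jE i (p j)) (x' i w')) ∧
      ∑ i, ∑ w' ∈ T' i, Finsupp.single (x' i w') (m' i w') =
        ∑ w ∈ T, Finsupp.single (mapPt (e : Ω →+* Ω') (x w)) (m w) :=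
  zeros_bc (K := K) e hE (transc_inv hg) S.inv p T m x h1 h2

/-- The base change of the push-forward of the divisor of a function. -/
theorem isPush_bc (e : Ω →ₐ[F] Ω') {N : ℕ} {κ : Type} {h : κ → MvPolynomial (Fin N) F}
    {E : Type u} [Field E] [Algebra F E] (hE : IsFunField F E) {g : E} (hg0 : g ≠ 0)
    {p : Fin N → E} (hp0 : p ≠ 0) (hp : Zer h E p) {z : ℙ Ω (Fin N → Ω) →₀ ℤ}
    (hz : IsPush F Ω g p z) : bc e z ∈ ratEq Ω' (hK K h) := by
  classical
  obtain ⟨S₀, m, x, h1, h2, rfl⟩ := hz
  by_cases hg : Transcendental F g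
  · have hnu : ∀ {k E Ω : Type u} [Field k] [Field E] [Field Ω] [Algebra k E] [Algebra k Ω]
        (w : Place k E Ω) (y : E), y ≠ 0 → (y ∈ w.V.nonunits ↔ y⁻¹ ∉ w.V) := by
      intro k E Ω _ _ _ _ _ w y hy
      rw [ValuationSubring.mem_nonunits_iff_or]
      exact ⟨fun h => h.resolve_left hy, Or.inr⟩
    obtain ⟨S⟩ := exists_split (K := K) hE hg
    set T : Finset (Place F E Ω) := S₀.filter fun w => g ∈ w.V.nonunits with hT
    set U : Finset (Place F E Ω) := S₀.filter fun w => g⁻¹ ∈ w.V.nonunits with hU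
    have hT1 : ∀ w, w ∈ T ↔ g ∈ w.V.nonunits := by
      intro w
      rw [hT, Finset.mem_filter]
      refine ⟨fun h => h.2, fun h => ⟨?_, h⟩⟩
      by_contra hS
      exact ((hnu w g hg0).1 h) (h1 w hS).2
    have hU1 : ∀ w, w ∈ U ↔ g⁻¹ ∈ w.V.nonunits := by
      intro w
      rw [hU, Finset.mem_filter]
      refine ⟨fun h => h.2, fun h => ⟨?_, h⟩⟩
      by_contra hS
      apply ((hnu w g⁻¹ (inv_ne_zero hg0)).1 h)
      rw [inv_inv]
      exact (h1 w hS).1
    obtain ⟨T', mT, xT, a1, a2, a3⟩ := zeros_bc (K := K) e hE hg S p T m x hT1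
      (fun w hw => h2 w (Finset.mem_filter.1 hw).1)
    obtain ⟨U', mU, xU, b1, b2, b3⟩ := poles_bc (K := K) e hE hg S p U
      (fun w => - m w) x hU1
      (fun w hw => ⟨Dz.ord_inv (h2 w (Finset.mem_filter.1 hw).1).1,
        (h2 w (Finset.mem_filter.1 hw).1).2⟩)
    have hsplit : ∑ w ∈ S₀, Finsupp.single (x w) (m w) =
        ∑ w ∈ T, Finsupp.single (x w) (m w) - ∑ w ∈ U, Finsupp.single (x w) (- m w) := by
      rw [hT, hU, Finset.sum_filter, Finset.sum_filter, ← Finset.sum_sub_distrib]
      refine Finset.sum_congr rfl fun w hw => ?_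
      rw [hnu w g hg0, hnu w g⁻¹ (inv_ne_zero hg0), inv_inv]
      by_cases ha : g ∈ w.V
      · by_cases hb : g⁻¹ ∈ w.V
        · rw [if_neg (not_not.2 hb), if_neg (not_not.2 ha), (h2 w hw).1.eq_zero ha hb,
            Finsupp.single_zero, sub_zero]
        · rw [if_pos hb, if_neg (not_not.2 ha), sub_zero]
      · have hb : g⁻¹ ∈ w.V := (w.V.mem_or_inv_mem g).resolve_left ha
        rw [if_neg (not_not.2 hb), if_pos ha, zero_sub, Finsupp.single_neg, neg_neg]
    have hbc : bc e (∑ w ∈ S₀, Finsupp.single (x w) (m w)) =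
        ∑ i, (∑ w' ∈ T' i, Finsupp.single (xT i w') (mT i w') -
          ∑ w' ∈ U' i, Finsupp.single (xU i w') (mU i w')) := by
      rw [hsplit, map_sub, map_sum, map_sum, Finset.sum_sub_distrib]
      congr 1
      · rw [a3]
        exact Finset.sum_congr rfl fun w _ => bc_single _ _ _
      · refine Eq.trans ?_ b3.symm
        exact Finset.sum_congr rfl fun w _ => bc_single _ _ _
    rw [hbc]
    refine AddSubgroup.sum_mem _ fun i _ => AddSubgroup.subset_closure ?_
    have hgi : S.jE i g ≠ 0 := (map_ne_zero _).2 hg0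
    have hdisj : Disjoint (T' i) (U' i) := by
      rw [Finset.disjoint_left]
      intro w' hw hw'
      have h3 := (a1 i w').1 hw
      have h4 := (b1 i w').1 hw'
      rw [map_inv₀, hnu w' _ (inv_ne_zero hgi), inv_inv] at h4
      exact h4 (w'.V.nonunits_subset h3)
    let : Algebra F (S.M i) := ((algebraMap K (S.M i)).comp (algebraMap F K)).toAlgebra
    have hT : IsScalarTower F K (S.M i) := IsScalarTower.of_algebraMap_eq fun a => rfl
    let j : E →ₐ[F] S.M i := { S.jE i with commutes' := fun a => S.comm i a }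
    refine ⟨S.M i, inferInstance, inferInstance, S.funField i, S.jE i g, fun l => S.jE i (p l),
      hgi, ?_, ?_, ?_⟩
    · intro h3
      apply hp0
      funext l
      exact (map_eq_zero (S.jE i)).1 (congrFun h3 l)
    · rw [zer_hK]
      exact hp.map j
    · refine ⟨T' i ∪ U' i, fun w' => if w' ∈ T' i then mT i w' else - mU i w',
        fun w' => if w' ∈ T' i then xT i w' else xU i w', ?_, ?_, ?_⟩
      · intro w' hw'
        rw [Finset.mem_union, not_or] at hw'
        constructor
        · by_contra h3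
          apply hw'.2
          rw [b1, map_inv₀, hnu w' _ (inv_ne_zero hgi), inv_inv]
          exact h3
        · by_contra h3
          apply hw'.1
          rw [a1, hnu w' _ hgi]
          exact h3
      · intro w' hw'
        by_cases h3 : w' ∈ T' i
        · beta_reduce
          rw [if_pos h3, if_pos h3]
          exact a2 i w' h3
        · beta_reduce
          rw [if_neg h3, if_neg h3]
          have h4 : w' ∈ U' i := (Finset.mem_union.1 hw').resolve_left h3
          obtain ⟨h5, h6⟩ := b2 i w' h4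
          refine ⟨?_, h6⟩
          have h7 := Dz.ord_inv h5
          rwa [map_inv₀, inv_inv] at h7
      · rw [Finset.sum_union hdisj, sub_eq_add_neg, ← Finset.sum_neg_distrib]
        congr 1
        · refine Finset.sum_congr rfl fun w' hw' => ?_
          beta_reduce
          rw [if_pos hw', if_pos hw']
        · refine Finset.sum_congr rfl fun w' hw' => ?_
          have h3 : w' ∉ T' i := fun h => (Finset.disjoint_left.1 hdisj h) hw'
          beta_reduce
          rw [if_neg h3, if_neg h3, Finsupp.single_neg]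
  · rw [Transcendental, not_not] at hg
    have h0 : ∑ w ∈ S₀, Finsupp.single (x w) (m w) = 0 := by
      refine Finset.sum_eq_zero fun w hw => ?_
      rw [(h2 w hw).1.eq_zero (mem_of_algebraic w hg) (mem_of_algebraic w hg.inv),
        Finsupp.single_zero]
    rw [h0, map_zero]
    exact zero_mem _

/-- **Base change of rational equivalence.** -/
theorem bc_ratEq (e : Ω →ₐ[F] Ω') {N : ℕ} {κ : Type} {h : κ → MvPolynomial (Fin N) F}
    {z : ℙ Ω (Fin N → Ω) →₀ ℤ} (hz : z ∈ ratEq Ω h) : bc e z ∈ ratEq Ω' (hK K h) := by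
  induction hz using AddSubgroup.closure_induction with
  | mem z hz =>
    obtain ⟨E, _, _, hE, g, p, hg, hp0, hp, hz⟩ := hz
    exact isPush_bc e hE hg hp0 hp hz
  | zero => rw [map_zero]; exact zero_mem _
  | add a b _ _ ha hb => rw [map_add]; exact add_mem ha hb
  | neg a _ ha => rw [map_neg]; exact neg_mem ha

end main

end Bx
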