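import Pool.Agent.Lib.MP_f80667_ag.Fa.Adl
import Pool.Agent.Lib.MP_f80667_ag.Bx.Main
import Pool.Agent.Lib.MP_f80667_ag.Bx.HatS
import Pool.Agent.Lib.MP_f80667_ag.Bx.Lft

/-!
The homomorphism `Δ : F^1(W) → F^1_A(W)`, and the image of `Δ` of the family if every closed point of
the base lifts to the family.
-/

open scoped LinearAlgebra.Projectivization
open MvPolynomial IsDedekindDomain NumberField

namespace ZC

section local_part

variable {F : Type} [Field F] [CharZero F] {N : ℕ} {κ : Type} {h : κ → MvPolynomial (Fin N) F}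

/-- Base change of zero-cycles of degree `0` modulo rational equivalence. -/
noncomputable def dl1 (E : Type) [Field E] [Algebra F E] (hh : ∀ j, ∃ d, (h j).IsHomogeneous d) :
    G1 F h →+ G1 E (hE E h) :=
  indMap (bc (emb' F E)) (fun _ hz => bc_mem0 (emb' F E) hh hz)
    (fun _ hz => Bx.bc_ratEq (emb' F E) hz)

/-- The same modulo norms. -/
noncomputable def dl1b (E : Type) [Field E] [Algebra F E] (hh : ∀ j, ∃ d, (h j).IsHomogeneous d) :
    G1 F h →+ G1b E (hE E h) :=
  indMap (bc (emb' F E)) (fun _ hz => bc_mem0 (emb' F E) hh hz)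
    (fun _ hz => AddSubgroup.mem_sup_left (Bx.bc_ratEq (emb' F E) hz))

theorem dl1_cls (E : Type) [Field E] [Algebra F E] (hh : ∀ j, ∃ d, (h j).IsHomogeneous d)
    (c : Z1 F h) : dl1 E hh (G1.cls c) = G1.cls (bcZ E hh c) := rfl

theorem dl1b_cls (E : Type) [Field E] [Algebra F E] (hh : ∀ j, ∃ d, (h j).IsHomogeneous d)
    (c : Z1 F h) : dl1b E hh (G1.cls c) = G1b.cls (bcZ E hh c) := rfl

end local_part

section adele

variable {F : Type} [Field F] [NumberField F] {N n r : ℕ} {κ : Type}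
  {h : κ → MvPolynomial (Fin N) F} {A : Fin r → Matrix (Fin n) (Fin n) (MvPolynomial (Fin N) F)}

/-- The diagonal homomorphism. -/
noncomputable def dl (hh : ∀ j, ∃ d, (h j).IsHomogeneous d) : G1 F h →+ FA h where
  toFun := fun x => (fun v => dl1 (FK F v) hh x, fun v => dl1b (IK F v) hh x)
  map_zero' := Prod.ext (funext fun _ => map_zero _) (funext fun _ => map_zero _)
  map_add' := fun _ _ => Prod.ext (funext fun _ => map_add _ _ _) (funext fun _ => map_add _ _ _)

theorem dl_cls (hh : ∀ j, ∃ d, (h j).IsHomogeneous d) (c : Z1 F h) :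
    dl hh (G1.cls c) = clA (dgA hh c) := rfl

/-- If the push-forward is bijective at all places and surjective over `F`, an element whose
push-forward is in the image of `Δ` of the base is in the image of `Δ` of the family. -/
theorem ImD.lift_of_surj {hh : ∀ j, ∃ d, (h j).IsHomogeneous d}
    {hA : ∀ i, ∃ e, ∀ a b, (A i a b).IsHomogeneous e} (hb : Function.Bijective (pA h A))
    (hs : Function.Surjective (p1 F h A)) {z : LHat (FA2 h A)}
    (hz : ImD hh (LHat.map (pA h A) z)) : ImD2 hh hA z := by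
  obtain ⟨x, hx⟩ := hz
  obtain ⟨x', rfl⟩ := LHat.map_surjective (p1 F h A) hs x
  refine ⟨x', fun m => ?_⟩
  obtain ⟨a, ha⟩ := x'.exists_rep m
  obtain ⟨c', rfl⟩ : ∃ c' : Z2 F h A, G2.cls c' = a := Quotient.exists_rep a
  obtain ⟨c, hc1, hc2⟩ := hx m
  refine ⟨c', ha, ?_⟩
  apply LHat.Rep.of_map (pA h A) hb
  rw [pA_clA2, pfA_dgA2]
  have h1 : (LHat.map (p1 F h A) x').Rep m (G1.cls (pfZ c')) := ha.map (p1 F h A)
  obtain ⟨d, hd⟩ := hc1.sub h1
  refine hc2.congr (c := dl hh d) ?_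
  rw [← map_nsmul, hd, map_sub, dl_cls, dl_cls]

omit [NumberField F] in
theorem PfOnto.surj (H : PfOnto F h A) : Function.Surjective (p1 F h A) := by
  intro y
  obtain ⟨c, rfl⟩ := G1.cls_surj y
  obtain ⟨c', hc'⟩ := H c
  exact ⟨G2.cls c', hc'⟩

/-- The lifting of points of the base over finite extensions gives the surjectivity of the
push-forward. -/
theorem pfOnto_of_points (hh : ∀ j, ∃ d, (h j).IsHomogeneous d)
    (hA : ∀ i, ∃ e, ∀ a b, (A i a b).IsHomogeneous e)
    (H : ∀ (L : Type) [Field L] [Algebra F L] [FiniteDimensional F L] (w : Fin N → L), w ≠ 0 →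
      Zer h L w → ∃ x : Fin n → L, x ≠ 0 ∧ Zer2 h A L w x) : PfOnto F h A := by
  intro c
  obtain ⟨c, hc⟩ := c
  obtain ⟨h1, h2⟩ := AddSubgroup.mem_inf.1 hc
  obtain ⟨c', hc', rfl⟩ := lift_cyc hh hA H h1
  have h3 : c' ∈ D02 F h A := by
    refine AddSubgroup.mem_inf.2 ⟨hc', ?_⟩
    rw [AddMonoidHom.mem_ker] at h2 ⊢
    rw [← deg_pushW, h2]
  exact ⟨⟨c', h3⟩, rfl⟩

/-- **Transfer.** -/
theorem transfer_onto (hh : ∀ j, ∃ d, (h j).IsHomogeneous d)
    (hA : ∀ i, ∃ e, ∀ a b, (A i a b).IsHomogeneous e)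
    (hfin : ∀ v : HeightOneSpectrum (𝓞 F), Function.Bijective
      (p1 (FK F v) (hE (FK F v) h) (AE (FK F v) A)))
    (hreal : ∀ v : InfinitePlace F, v.IsReal → PfBijN (IK F v) (hE (IK F v) h) (AE (IK F v) A)) :
    ∃ φ : LHat (FA2 h A) ≃ LHat (FA h),
      (∀ (z : LHat (FA2 h A)) (m : ℕ+) (c : ZA2 h A), z.Rep m (clA2 c) →
        (φ z).Rep m (clA (pfA c))) ∧
      (PfOnto F h A →
        (∀ z, ImD2 hh hA z ↔ ImD hh (φ z)) ∧
        ∀ (B B' T : Type) [Zero T] (b : B → B') (PW : LHat (FA h) → B → T)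
          (PX : LHat (FA2 h A) → B' → T), (∀ z β, PX z (b β) = PW (φ z) β) →
          (∀ y, (∀ β, PW y β = 0) → ImD hh y) → ∀ z, (∀ β, PX z β = 0) → ImD2 hh hA z) := by
  have hp := pA_bijective hh hfin hreal
  refine ⟨Equiv.ofBijective _ (LHat.map_bijective (pA h A) hp), fun z m c hz => ?_,
    fun H => ?_⟩
  · exact hz.map (pA h A)
  · have ht : ∀ z : LHat (FA2 h A), ImD2 hh hA z ↔ ImD hh (LHat.map (pA h A) z) := fun z =>
      ⟨fun hz => hz.push, fun hz => hz.lift_of_surj hp H.surj⟩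
    refine ⟨ht, fun B B' T _ b PW PX hproj hW z hz => ?_⟩
    rw [ht]
    apply hW
    intro β
    rw [← hz (b β), hproj]
    rfl

end adele

end ZC
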