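import Mathlib
import Pool.Agent.Lib.MP_f80667_ag.ZC.Defs
import Pool.Agent.Lib.MP_f80667_ag.Dz.Fin

/-!
Base change of a function field `E/F` of one variable to an extension field `K` of `F`: the factors
`M i` of the algebra `E ⊗_{F(g)} K(g)`.

Proof of `exists_split`: `E/F(g)` is finite (`Dz.finite_adjoin`) and separable, `E = F(g)(θ)` with
minimal polynomial `f` of degree `d`. Let `𝕂 = RatFunc K` and `j : F(g) → 𝕂` the homomorphism over
`F → K` with `g ↦ X`. The polynomial `f.map j` is separable, so it is the product of different monic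
irreducible polynomials `f_i`; `M i = AdjoinRoot f_i`, `K → 𝕂 → M i`, `jE i : E → M i` maps `θ` to
the root and is `j` on `F(g)`; `[M i : K(g)] = deg f_i` because the image of `𝕂` in `M i` is
`K(g)`. Injectivity: `a l = ∑_{s < d} j(a_{l,s}) θ^s`; `∑ a l κ l = 0` in all `M i` means that
`∑_s (∑_l j(a_{l,s}) κ l) X^s` is divisible by all `f_i`, so by their product, so it is `0`, and the
`κ l` are linearly independent over `F(X)` in `K(X)` (clear denominators and compare coefficients).
-/

open Polynomial

namespace Bx

open ZC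

universe u

/-- The factors of `E ⊗_F K`, cut out by the element `g`. -/
structure Split (F E K : Type u) [Field F] [Field E] [Field K] [Algebra F E] [Algebra F K]
    (g : E) where
  ι : Type u
  [fin : Fintype ι]
  M : ι → Type u
  [fld : ∀ i, Field (M i)]
  [alg : ∀ i, Algebra K (M i)]
  jE : ∀ i, E →+* M i
  comm : ∀ i (a : F), jE i (algebraMap F E a) = algebraMap K (M i) (algebraMap F K a)
  funField : ∀ i, IsFunField K (M i)
  transc : ∀ i, Transcendental K (jE i g)
  rank : ∑ i, Module.finrank (IntermediateField.adjoin K {jE i g}) (M i) =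
    Module.finrank (IntermediateField.adjoin F {g}) E
  inj : ∀ (l : Type u) [Fintype l] (c : l → K), LinearIndependent F c → ∀ a : l → E,
    (∀ i, ∑ x, jE i (a x) * algebraMap K (M i) (c x) = 0) → a = 0

attribute [instance] Split.fin Split.fld Split.alg

/-! ### The homomorphism `F(g) → K(X)` -/

section hom

open scoped IntermediateField.algebraAdjoinAdjoin

variable {F E : Type u} (K : Type u) [Field F] [Field E] [Field K] [Algebra F E] [Algebra F K]
  {g : E}

/-- `F[g] → K(X)`. -/
private noncomputable def j0 (hg : Transcendental F g) : Algebra.adjoin F {g} →+* RatFunc K :=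
  ((algebraMap K[X] (RatFunc K)).comp (Polynomial.mapRingHom (algebraMap F K))).comp
    (Polynomial.algEquivOfTranscendental F g hg).symm.toRingEquiv.toRingHom

private theorem j0_apply (hg : Transcendental F g) (p : F[X]) :
    j0 K hg (Polynomial.algEquivOfTranscendental F g hg p) =
      algebraMap K[X] (RatFunc K) (p.map (algebraMap F K)) := by
  change algebraMap K[X] (RatFunc K) (Polynomial.mapRingHom (algebraMap F K)
    ((Polynomial.algEquivOfTranscendental F g hg).symm
      (Polynomial.algEquivOfTranscendental F g hg p))) = _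
  rw [AlgEquiv.symm_apply_apply]
  rfl

private theorem j0_inj (hg : Transcendental F g) : Function.Injective (j0 K hg) := by
  have h1 : Function.Injective (algebraMap K[X] (RatFunc K)) :=
    IsFractionRing.injective K[X] (RatFunc K)
  have h2 : Function.Injective (Polynomial.mapRingHom (algebraMap F K)) :=
    Polynomial.map_injective _ (algebraMap F K).injective
  have h3 : Function.Injective (Polynomial.algEquivOfTranscendental F g hg).symm :=
    (Polynomial.algEquivOfTranscendental F g hg).symm.injective
  exact (h1.comp h2).comp h3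

/-- `F(g) → K(X)`. -/
private noncomputable def jj (hg : Transcendental F g) :
    IntermediateField.adjoin F {g} →+* RatFunc K :=
  IsFractionRing.lift (A := Algebra.adjoin F {g}) (K := IntermediateField.adjoin F {g})
    (j0_inj K hg)

private theorem jj_algebraMap (hg : Transcendental F g) (x : Algebra.adjoin F {g}) :
    jj K hg (algebraMap _ (IntermediateField.adjoin F {g}) x) = j0 K hg x :=
  IsFractionRing.lift_algebraMap _ _

private theorem jj_comm (hg : Transcendental F g) (a : F) :
    jj K hg (algebraMap F _ a) = algebraMap K (RatFunc K) (algebraMap F K a) := by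
  have h1 : algebraMap F (IntermediateField.adjoin F {g}) a = algebraMap (Algebra.adjoin F {g})
      (IntermediateField.adjoin F {g}) (Polynomial.algEquivOfTranscendental F g hg (C a)) := by
    rw [← Polynomial.algebraMap_eq, AlgEquiv.commutes]
    rfl
  rw [h1, jj_algebraMap, j0_apply, map_C, RatFunc.algebraMap_C]
  rfl

private theorem jj_gen (hg : Transcendental F g) :
    jj K hg (IntermediateField.AdjoinSimple.gen F g) = RatFunc.X := by
  have h1 : IntermediateField.AdjoinSimple.gen F g = algebraMap (Algebra.adjoin F {g})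
      (IntermediateField.adjoin F {g}) (Polynomial.algEquivOfTranscendental F g hg X) := by
    apply Subtype.ext
    change g = ((Polynomial.algEquivOfTranscendental F g hg X : Algebra.adjoin F {g}) : E)
    simp
  rw [h1, jj_algebraMap, j0_apply, map_X, RatFunc.algebraMap_X]

/-- Linear disjointness of `F(X)` and `K` over `F`. -/
private theorem lin_disj (hg : Transcendental F g) {l : Type*} [Fintype l] (c : l → K)
    (hc : LinearIndependent F c) (a : l → IntermediateField.adjoin F {g})
    (h : ∑ x, jj K hg (a x) * algebraMap K (RatFunc K) (c x) = 0) : a = 0 := by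
  obtain ⟨b, hb⟩ := IsLocalization.exist_integer_multiples_of_finite
    (nonZeroDivisors (Algebra.adjoin F {g})) a
  choose r hr using hb
  obtain ⟨e, he⟩ : ∃ e : F[X] ≃ₐ[F] Algebra.adjoin F {g},
      e = Polynomial.algEquivOfTranscendental F g hg := ⟨_, rfl⟩
  have hp : ∀ x, ∃ p : F[X], e p = r x := fun x => e.surjective _
  choose p hp using hp
  have h1 : ∑ x, ((p x).map (algebraMap F K)) * C (c x) = 0 := by
    apply IsFractionRing.injective K[X] (RatFunc K)
    rw [map_sum, map_zero]
    have h2 : j0 K hg b * ∑ x, jj K hg (a x) * algebraMap K (RatFunc K) (c x) = 0 := by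
      rw [h, mul_zero]
    rw [Finset.mul_sum] at h2
    rw [← h2]
    refine Finset.sum_congr rfl fun x _ => ?_
    rw [map_mul, ← mul_assoc, RatFunc.algebraMap_C]
    congr 1
    rw [← j0_apply K hg, ← he, hp, ← jj_algebraMap, hr, ← jj_algebraMap, ← map_mul,
      Algebra.smul_def]
  have h3 : ∀ n x, (p x).coeff n = 0 := by
    intro n
    have h4 := congrArg (fun q : K[X] => q.coeff n) h1
    simp only [finsetSum_coeff, coeff_mul_C, coeff_map, coeff_zero] at h4
    have h5 : ∑ x, (p x).coeff n • c x = 0 := by
      rw [← h4]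
      exact Finset.sum_congr rfl fun x _ => by rw [Algebra.smul_def]
    exact Fintype.linearIndependent_iff.1 hc _ h5
  funext x
  have h6 : p x = 0 := by
    ext n
    rw [h3, coeff_zero]
  have h7 := hr x
  rw [← hp x, h6, map_zero, map_zero] at h7
  have h8 : (algebraMap (Algebra.adjoin F {g}) (IntermediateField.adjoin F {g}) b) * a x = 0 := by
    rw [← Algebra.smul_def, h7]
  rcases mul_eq_zero.1 h8 with h9 | h9
  · exfalso
    exact nonZeroDivisors.coe_ne_zero b ((IsFractionRing.injective (Algebra.adjoin F {g})
      (IntermediateField.adjoin F {g})) (h9.trans (map_zero _).symm))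
  · exact h9

end hom

/-! ### The factors -/

section factor

private theorem exists_jE {L E 𝕂 : Type u} [Field L] [Field E] [Field 𝕂] [Algebra L E]
    (pb : PowerBasis L E) (j : L →+* 𝕂) (p : 𝕂[X]) (hp : p ∣ (minpoly L pb.gen).map j) :
    ∃ φ : E →+* AdjoinRoot p, (∀ a : L, φ (algebraMap L E a) = AdjoinRoot.of p (j a)) ∧
      ∀ A : L[X], φ (aeval pb.gen A) = AdjoinRoot.mk p (A.map j) := by
  let : Algebra L (AdjoinRoot p) := ((AdjoinRoot.of p).comp j).toAlgebra
  have hh : aeval (AdjoinRoot.root p) (minpoly L pb.gen) = 0 := by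
    have h1 : eval₂ (AdjoinRoot.of p) (AdjoinRoot.root p) ((minpoly L pb.gen).map j) = 0 :=
      eval₂_eq_zero_of_dvd_of_eval₂_eq_zero _ _ hp (AdjoinRoot.eval₂_root p)
    rw [eval₂_map] at h1
    exact h1
  refine ⟨(pb.lift (AdjoinRoot.root p) hh).toRingHom, fun a => ?_, fun A => ?_⟩
  · exact (pb.lift (AdjoinRoot.root p) hh).commutes a
  · change (pb.lift (AdjoinRoot.root p) hh) (aeval pb.gen A) = _
    rw [← aeval_algHom_apply, PowerBasis.lift_gen, aeval_def, ← AdjoinRoot.aeval_eq, aeval_def,
      eval₂_map]
    rfl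

variable {K : Type u} [Field K]

private theorem adjoin_eq (p : (RatFunc K)[X]) [Fact (Irreducible p)] :
    IntermediateField.adjoin K {algebraMap (RatFunc K) (AdjoinRoot p) RatFunc.X} =
      (IsScalarTower.toAlgHom K (RatFunc K) (AdjoinRoot p)).fieldRange := by
  rw [AlgHom.fieldRange_eq_map, ← RatFunc.adjoin_X, IntermediateField.adjoin_map,
    Set.image_singleton]
  rfl

private theorem finrank_factor (p : (RatFunc K)[X]) [hp : Fact (Irreducible p)] :
    Module.finrank (IntermediateField.adjoin K
      {algebraMap (RatFunc K) (AdjoinRoot p) RatFunc.X}) (AdjoinRoot p) = p.natDegree := by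
  have h1 : ∀ x : RatFunc K, algebraMap (RatFunc K) (AdjoinRoot p) x ∈
      IntermediateField.adjoin K {algebraMap (RatFunc K) (AdjoinRoot p) RatFunc.X} := by
    intro x
    rw [adjoin_eq]
    exact ⟨x, rfl⟩
  obtain ⟨ψ, hψ⟩ : ∃ ψ : RatFunc K →+* IntermediateField.adjoin K
      {algebraMap (RatFunc K) (AdjoinRoot p) RatFunc.X},
      ψ = (algebraMap (RatFunc K) (AdjoinRoot p)).codRestrict _ h1 := ⟨_, rfl⟩
  have hb : Function.Bijective ψ := by
    refine ⟨ψ.injective, fun y => ?_⟩
    have h2 : (y : AdjoinRoot p) ∈
        (IsScalarTower.toAlgHom K (RatFunc K) (AdjoinRoot p)).fieldRange :=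
      (adjoin_eq p).le y.2
    obtain ⟨x, hx⟩ := h2
    refine ⟨x, Subtype.ext ?_⟩
    rw [hψ]
    exact hx
  have h3 := Algebra.finrank_eq_of_equiv_equiv (R₀ := RatFunc K) (S₀ := AdjoinRoot p)
    (R₁ := IntermediateField.adjoin K {algebraMap (RatFunc K) (AdjoinRoot p) RatFunc.X})
    (S₁ := AdjoinRoot p) (RingEquiv.ofBijective ψ hb) (RingEquiv.refl _) (by
      ext x
      change ((ψ x : IntermediateField.adjoin K
        {algebraMap (RatFunc K) (AdjoinRoot p) RatFunc.X}) : AdjoinRoot p) = _
      rw [hψ]
      rfl)
  rw [← h3, (AdjoinRoot.powerBasis hp.out.ne_zero).finrank, AdjoinRoot.powerBasis_dim]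

end factor

open UniqueFactorizationMonoid in
theorem exists_split {F E K : Type u} [Field F] [CharZero F] [Field E] [Field K] [Algebra F E]
    [Algebra F K] (hE : IsFunField F E) {g : E} (hg : Transcendental F g) :
    Nonempty (Split F E K g) := by
  classical
  have hfin : FiniteDimensional (IntermediateField.adjoin F {g}) E := Dz.finite_adjoin hE hg
  have hch : CharZero (IntermediateField.adjoin F {g}) :=
    charZero_of_injective_algebraMap (algebraMap F _).injective
  obtain ⟨pb, hpb⟩ : ∃ pb : PowerBasis (IntermediateField.adjoin F {g}) E,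
      pb = Field.powerBasisOfFiniteOfSeparable _ _ := ⟨_, rfl⟩
  have hint : IsIntegral (IntermediateField.adjoin F {g}) pb.gen := Algebra.IsIntegral.isIntegral _
  have hfm := minpoly.monic hint
  have hfs : (minpoly (IntermediateField.adjoin F {g}) pb.gen).Separable :=
    (minpoly.irreducible hint).separable
  obtain ⟨q, hq⟩ : ∃ q : (RatFunc K)[X],
      q = (minpoly (IntermediateField.adjoin F {g}) pb.gen).map (jj K hg) := ⟨_, rfl⟩
  have hqm : q.Monic := by
    rw [hq]
    exact hfm.map _
  have hqs : q.Separable := by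
    rw [hq]
    exact hfs.map
  have hqd : q.natDegree = pb.dim := by
    rw [hq, hfm.natDegree_map, pb.natDegree_minpoly]
  have hnd : (normalizedFactors q).Nodup :=
    (squarefree_iff_nodup_normalizedFactors hqm.ne_zero).1 hqs.squarefree
  have hprod : ∏ p ∈ (normalizedFactors q).toFinset, p = q := by
    have h1 := leadingCoeff_mul_prod_normalizedFactors q
    rw [hqm.leadingCoeff, C_1, one_mul] at h1
    rw [Finset.prod, Multiset.toFinset_val, Multiset.dedup_eq_self.2 hnd, Multiset.map_id']
    exact h1
  obtain ⟨S, hS⟩ : ∃ S : Finset (RatFunc K)[X], S = (normalizedFactors q).toFinset := ⟨_, rfl⟩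
  rw [← hS] at hprod
  have hmem : ∀ i : {p // p ∈ S}, Irreducible i.1 ∧ i.1.Monic ∧ i.1 ∣ q := by
    rintro ⟨p, hp⟩
    rw [hS, Multiset.mem_toFinset] at hp
    exact (Polynomial.mem_normalizedFactors_iff hqm.ne_zero).1 hp
  have hfact : ∀ i : {p // p ∈ S}, Fact (Irreducible i.1) := fun i => ⟨(hmem i).1⟩
  have hj := fun i : {p // p ∈ S} => exists_jE pb (jj K hg) i.1 (by
    rw [← hq]
    exact (hmem i).2.2)
  choose jE hjE hjA using hj
  have hjg : ∀ i : {p // p ∈ S}, jE i g = algebraMap (RatFunc K) (AdjoinRoot i.1) RatFunc.X := by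
    intro i
    have h1 : g = algebraMap (IntermediateField.adjoin F {g}) E
      (IntermediateField.AdjoinSimple.gen F g) := rfl
    conv_lhs => rw [h1]
    rw [hjE, jj_gen]
    rfl
  have hrk : ∀ i : {p // p ∈ S}, Module.finrank (IntermediateField.adjoin K {jE i g})
      (AdjoinRoot i.1) = i.1.natDegree := by
    intro i
    rw [hjg]
    exact finrank_factor i.1
  have htr : ∀ i : {p // p ∈ S}, Transcendental K (jE i g) := by
    intro i
    rw [hjg]
    exact (transcendental_algebraMap_iff (algebraMap (RatFunc K) (AdjoinRoot i.1)).injective).2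
      RatFunc.transcendental_X
  refine ⟨{
    ι := {p // p ∈ S}
    fin := inferInstance
    M := fun i => AdjoinRoot i.1
    fld := fun i => inferInstance
    alg := fun i => inferInstance
    jE := jE
    comm := ?_
    funField := ?_
    transc := htr
    rank := ?_
    inj := ?_ }⟩
  · intro i a
    have h1 : algebraMap F E a = algebraMap (IntermediateField.adjoin F {g}) E
      (algebraMap F _ a) := rfl
    rw [h1, hjE, jj_comm]
    rfl
  · intro i
    refine ⟨jE i g, htr i, ?_⟩
    apply Module.finite_of_finrank_pos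
    rw [hrk]
    exact (hmem i).1.natDegree_pos
  · rw [pb.finrank, ← hqd, ← hprod, natDegree_prod_of_monic _ _ (fun p hp => (hmem ⟨p, hp⟩).2.1),
      ← Finset.sum_coe_sort S (fun p => p.natDegree)]
    exact Finset.sum_congr rfl fun i _ => hrk i
  · intro l _ c hc a ha
    have h1 := fun x => pb.exists_eq_aeval (a x)
    choose A hA1 hA2 using h1
    obtain ⟨B, hB⟩ : ∃ B : (RatFunc K)[X], B = ∑ x, (A x).map (jj K hg) *
      C (algebraMap K (RatFunc K) (c x)) := ⟨_, rfl⟩
    have h2 : ∀ i : {p // p ∈ S}, i.1 ∣ B := by
      intro i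
      rw [← AdjoinRoot.mk_eq_zero, hB, map_sum, ← ha i]
      refine Finset.sum_congr rfl fun x _ => ?_
      rw [map_mul, ← hjA, ← hA2]
      rfl
    have h3 : q ∣ B := by
      rw [← hprod]
      refine Finset.prod_dvd_of_coprime ?_ fun p hp => h2 ⟨p, hp⟩
      intro p hp p' hp' hne
      have h4 := hmem ⟨p, hp⟩
      have h5 := hmem ⟨p', hp'⟩
      refine (h4.1.coprime_iff_not_dvd).2 fun hd => hne ?_
      exact eq_of_monic_of_associated h4.2.1 h5.2.1 (h4.1.associated_of_dvd h5.1 hd)
    have h4 : B = 0 := by
      refine eq_zero_of_dvd_of_natDegree_lt h3 ?_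
      rw [hqd, hB]
      have hd0 : 0 < pb.dim := pb.dim_pos
      have h6 : (∑ x, (A x).map (jj K hg) * C (algebraMap K (RatFunc K) (c x))).natDegree ≤
          pb.dim - 1 := by
        refine natDegree_sum_le_of_forall_le _ _ fun x _ => ?_
        refine (natDegree_mul_C_le _ _).trans ?_
        rw [natDegree_map]
        have := hA1 x
        omega
      omega
    funext x
    have h5 : A x = 0 := by
      ext n : 1
      have h6 := congrArg (fun p : (RatFunc K)[X] => p.coeff n) (hB.symm.trans h4)
      simp only [finsetSum_coeff, coeff_mul_C, coeff_map, coeff_zero] at h6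
      have h7 := lin_disj K hg c hc (fun x => (A x).coeff n) h6
      exact congrFun h7 x
    rw [hA2 x, h5, map_zero]
    rfl

end Bx
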